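import Mathlib
import Pool.Agent.N524.Szem

/-!
# A common pattern for a positive proportion of dense sets of heights
-/

set_option autoImplicit false

open Finset
open scoped Classical

namespace Pool.Agent.U597.ID

/-- Szemerédi's theorem for a fixed interval around `0`. -/
theorem szem_int (S : Finset ℤ) (δ : ℝ) (hδ : 0 < δ) : ∃ s : ℕ, ∀ E ⊆ Finset.Icc (-(s : ℤ)) s,
    δ * (2 * s + 1) ≤ (#E : ℝ) → ∃ a ∈ Finset.Icc (-(s : ℤ)) s, ∃ j ∈ Finset.Icc (1 : ℤ) (2 * s),
      ∀ w ∈ S, a + j * w ∈ E := by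
  have hcard : ∀ s : ℕ, #(Finset.Icc (-(s : ℤ)) s) = 2 * s + 1 := by
    intro s
    rw [Int.card_Icc]
    omega
  obtain ⟨s0, hs0⟩ := Pool.Agent.N524.szem_abs (fun s : ℕ => Finset.Icc (-(s : ℤ)) s) 3 (by norm_num)
    (by
      intro s t hst
      apply Finset.Icc_subset_Icc <;> omega)
    (by
      intro v
      refine ⟨v.natAbs, fun s u hu => ?_⟩
      rw [Finset.mem_Icc] at hu ⊢
      push_cast
      have h1 := neg_abs_le v
      have h2 := le_abs_self v
      constructor <;> linarith)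
    (by
      intro K
      refine ⟨K, fun s hs => ?_⟩
      rw [hcard, hcard]
      push_cast
      have : (K : ℝ) ≤ s := by exact_mod_cast hs
      linarith)
    (by
      intro s
      exact ⟨0, by rw [Finset.mem_Icc]; constructor <;> omega⟩)
    (insert 0 (insert 1 S)) δ hδ
  refine ⟨s0, fun E hE hc => ?_⟩
  obtain ⟨a, j, hj, h⟩ := hs0 s0 le_rfl E hE (by rw [hcard]; push_cast; exact hc)
  have h0 : a ∈ E := by simpa using h 0 (Finset.mem_insert_self _ _)
  have h1 : a + j ∈ E := by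
    simpa using h 1 (Finset.mem_insert_of_mem (Finset.mem_insert_self _ _))
  have h0' := Finset.mem_Icc.1 (hE h0)
  have h1' := Finset.mem_Icc.1 (hE h1)
  refine ⟨a, hE h0, j, ?_, ?_⟩
  · rw [Finset.mem_Icc]
    constructor <;> omega
  · intro w hw
    have := h w (Finset.mem_insert_of_mem (Finset.mem_insert_of_mem hw))
    rwa [nsmul_eq_mul] at this

/-- A positive proportion of dense subsets of `[0, n)` contains the same copy of `S` with a large
ratio. -/
theorem pattern (S : Finset ℤ) (l : ℝ) (hl : 0 < l) : ∃ (c0 C1 : ℝ) (n0 : ℕ), 0 < c0 ∧ 0 < C1 ∧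
    ∀ n : ℕ, n0 ≤ n → ∀ (Ω : Type) [Fintype Ω] [Nonempty Ω] (E : Ω → Finset ℤ),
    (∀ ω, E ω ⊆ Finset.Ico 0 (n : ℤ)) → (∀ ω, l * n ≤ (#(E ω) : ℝ)) →
    ∃ (j0 m : ℤ) (T : Finset Ω), c0 * n ≤ (m : ℝ) ∧ 1 ≤ m ∧
      (Fintype.card Ω : ℝ) ≤ C1 * #T ∧ ∀ ω ∈ T, ∀ f ∈ S, j0 + m * f ∈ E ω := by
  obtain ⟨s, hs⟩ := szem_int S (l / 4) (by positivity)
  obtain ⟨c1, hc1⟩ : ∃ c1 : ℝ, c1 = l / (8 * (s + 1)) := ⟨_, rfl⟩
  have hc1pos : 0 < c1 := by rw [hc1]; positivity
  obtain ⟨n0, hn0⟩ := exists_nat_gt (2 / c1)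
  refine ⟨c1 / 2, 4 * ((2 * s + 1) * (2 * s)) / l + 1, n0, by positivity, by positivity, ?_⟩
  intro n hn Ω _ _ E hE hEc
  have hnR : 2 / c1 < n := lt_of_lt_of_le hn0 (by exact_mod_cast hn)
  have hn2 : 2 < c1 * n := by
    rw [div_lt_iff₀ hc1pos] at hnR
    linarith
  have hnpos : (0 : ℝ) < n := lt_trans (by positivity) hnR
  obtain ⟨lam, hlam⟩ : ∃ lam : ℕ, lam = ⌊c1 * n⌋₊ := ⟨_, rfl⟩
  have hlam1 : (lam : ℝ) ≤ c1 * n := by rw [hlam]; exact Nat.floor_le (by positivity)
  have hlam2 : c1 * n < lam + 1 := by rw [hlam]; exact Nat.lt_floor_add_one _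
  have hlam3 : c1 / 2 * n ≤ lam := by linarith
  have hlam4 : 1 ≤ lam := by
    have : (1 : ℝ) < lam := by linarith
    exact_mod_cast this.le
  let X : Finset ℤ := Finset.Icc (-(s : ℤ)) s
  have hX : (#X : ℝ) = 2 * s + 1 := by
    have : #X = 2 * s + 1 := by
      rw [Int.card_Icc]
      omega
    rw [this]
    push_cast
    ring
  have hXpos : (0 : ℝ) < #X := by rw [hX]; positivity
  let G : Finset ℤ := Finset.Ico 0 (n : ℤ)
  have hG : (#G : ℝ) = n := by
    have : #G = n := by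
      rw [Int.card_Ico]
      omega
    rw [this]
  -- shifts
  have hshift : ∀ ω, ∀ x ∈ X, l * n * (3 / 4) ≤ (#(G.filter fun g : ℤ => g + (lam : ℤ) * x ∈ E ω) : ℝ) := by
    intro ω x hx
    obtain ⟨y, hy⟩ : ∃ y : ℕ, y = (lam * x : ℤ).natAbs := ⟨_, rfl⟩
    have hyabs : (y : ℤ) = |(lam : ℤ) * x| := by rw [hy, Int.natCast_natAbs]
    have hsub : E ω ⊆ ((G.filter fun g : ℤ => g + (lam : ℤ) * x ∈ E ω).image (fun g => g + lam * x)) ∪
        (Finset.Ico 0 (y : ℤ) ∪ Finset.Ico ((n : ℤ) - y) n) := by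
      intro e he
      have h1 := Finset.mem_Ico.1 (hE ω he)
      have h2 := neg_abs_le ((lam : ℤ) * x)
      have h3 := le_abs_self ((lam : ℤ) * x)
      rw [← hyabs] at h2 h3
      by_cases h4 : e - lam * x ∈ G
      · apply Finset.mem_union_left
        rw [Finset.mem_image]
        refine ⟨e - lam * x, Finset.mem_filter.2 ⟨h4, ?_⟩, ?_⟩
        · rwa [sub_add_cancel]
        · rw [sub_add_cancel]
      · apply Finset.mem_union_right
        rw [Finset.mem_Ico] at h4
        rw [Finset.mem_union, Finset.mem_Ico, Finset.mem_Ico]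
        by_contra hcon
        push Not at hcon
        apply h4
        obtain ⟨h5, h6⟩ := hcon
        have h7 := h5 h1.1
        constructor
        · linarith
        · by_contra h8
          have h9 := h6 (by linarith)
          linarith [h1.2]
    have hc := (Finset.card_le_card hsub).trans (Finset.card_union_le _ _)
    have hc2 : #(Finset.Ico 0 (y : ℤ) ∪ Finset.Ico ((n : ℤ) - y) n) ≤ 2 * y := by
      refine (Finset.card_union_le _ _).trans ?_
      rw [Int.card_Ico, Int.card_Ico]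
      omega
    have hc3 : #((G.filter fun g : ℤ => g + (lam : ℤ) * x ∈ E ω).image (fun g => g + lam * x)) ≤
        #(G.filter fun g : ℤ => g + (lam : ℤ) * x ∈ E ω) := Finset.card_image_le
    have hc4 : (#(E ω) : ℝ) ≤ #(G.filter fun g : ℤ => g + (lam : ℤ) * x ∈ E ω) + 2 * y := by
      have : #(E ω) ≤ #(G.filter fun g : ℤ => g + (lam : ℤ) * x ∈ E ω) + 2 * y := by omega
      exact_mod_cast this
    have hy2 : (y : ℝ) ≤ l * n / 8 := by
      have h5 : (y : ℝ) = |(lam : ℝ) * x| := by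
        have : ((y : ℤ) : ℝ) = ((|(lam : ℤ) * x| : ℤ) : ℝ) := by rw [hyabs]
        push_cast at this
        exact this
      have h6 : |(x : ℝ)| ≤ s := by
        have h7 := Finset.mem_Icc.1 hx
        rw [abs_le]
        constructor
        · exact_mod_cast h7.1
        · exact_mod_cast h7.2
      rw [h5, abs_mul, Nat.abs_cast]
      calc (lam : ℝ) * |(x : ℝ)| ≤ (c1 * n) * s := by gcongr
        _ ≤ (c1 * n) * (s + 1) := by gcongr; linarith
        _ = l * n / 8 := by rw [hc1]; field_simp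
    have := hEc ω
    linarith
  -- good centres
  let Gd : Ω → Finset ℤ := fun ω => G.filter fun g : ℤ =>
    l / 4 * #X ≤ (#(X.filter fun x : ℤ => g + (lam : ℤ) * x ∈ E ω) : ℝ)
  have hgood : ∀ ω, l * n / 4 ≤ (#(Gd ω) : ℝ) := by
    intro ω
    have h1 : ∑ g ∈ G, (#(X.filter fun x : ℤ => g + (lam : ℤ) * x ∈ E ω) : ℝ) =
        ∑ x ∈ X, (#(G.filter fun g : ℤ => g + (lam : ℤ) * x ∈ E ω) : ℝ) := by
      have : ∑ g ∈ G, #(X.filter fun x : ℤ => g + (lam : ℤ) * x ∈ E ω) = ∑ x ∈ X, #(G.filter fun g : ℤ => g + (lam : ℤ) * x ∈ E ω) := by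
        simp_rw [Finset.card_filter]
        exact Finset.sum_comm
      exact_mod_cast this
    have h2 : #X * (l * n * (3 / 4)) ≤ ∑ g ∈ G, (#(X.filter fun x : ℤ => g + (lam : ℤ) * x ∈ E ω) : ℝ) := by
      rw [h1, ← nsmul_eq_mul, ← Finset.sum_const]
      exact Finset.sum_le_sum fun x hx => hshift ω x hx
    have h3 : ∑ g ∈ G, (#(X.filter fun x : ℤ => g + (lam : ℤ) * x ∈ E ω) : ℝ) ≤
        #(Gd ω) * #X + n * (l / 4 * #X) := by
      have h4 : ∀ g ∈ G, (#(X.filter fun x : ℤ => g + (lam : ℤ) * x ∈ E ω) : ℝ) ≤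
          (if l / 4 * #X ≤ (#(X.filter fun x : ℤ => g + (lam : ℤ) * x ∈ E ω) : ℝ) then (#X : ℝ) else 0) +
            l / 4 * #X := by
        intro g _
        split_ifs with h
        · have : (#(X.filter fun x : ℤ => g + (lam : ℤ) * x ∈ E ω) : ℝ) ≤ #X := by
            exact_mod_cast Finset.card_filter_le _ _
          have h5 : 0 ≤ l / 4 * #X := by positivity
          linarith
        · push Not at h
          linarith
      refine (Finset.sum_le_sum h4).trans (le_of_eq ?_)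
      rw [Finset.sum_add_distrib, Finset.sum_const, nsmul_eq_mul, hG, ← Finset.sum_filter,
        Finset.sum_const, nsmul_eq_mul]
    have h5 : #X * (l * n * (3 / 4)) ≤
        #X * ((#(Gd ω) : ℝ) + n * (l / 4)) := by
      calc _ ≤ _ := h2.trans h3
        _ = _ := by ring
    have h6 := le_of_mul_le_mul_left h5 hXpos
    have h7 : 0 < l * n := by positivity
    linarith
  -- configurations
  let Q : Ω → ℤ × ℤ × ℤ → Prop := fun ω p =>
    ∀ f ∈ S, (p.1 + lam * p.2.1) + (lam * p.2.2) * f ∈ E ω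
  let P : Finset (ℤ × ℤ × ℤ) := G ×ˢ (X ×ˢ Finset.Icc (1 : ℤ) (2 * s))
  have hPc : (#P : ℝ) = n * ((2 * s + 1) * (2 * s)) := by
    have h1 : #(Finset.Icc (1 : ℤ) (2 * s)) = 2 * s := by
      rw [Int.card_Icc]
      omega
    have h2 : #P = #G * (#X * (2 * s)) := by
      rw [Finset.card_product, Finset.card_product, h1]
    rw [h2]
    push_cast
    rw [hG, hX]
  have hconf : ∀ ω, l * n / 4 ≤
      (#(P.filter fun p : ℤ × ℤ × ℤ => Q ω p) : ℝ) := by
    intro ω
    refine (hgood ω).trans ?_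
    have hsub : Gd ω ⊆
        (P.filter fun p : ℤ × ℤ × ℤ => Q ω p).image Prod.fst := by
      intro g hg
      obtain ⟨hg1, hg2⟩ := Finset.mem_filter.1 hg
      obtain ⟨a, ha, j, hj, h⟩ := hs (X.filter fun x : ℤ => g + (lam : ℤ) * x ∈ E ω) (Finset.filter_subset _ _) (by
        rw [hX] at hg2
        exact hg2)
      rw [Finset.mem_image]
      refine ⟨(g, a, j), Finset.mem_filter.2 ⟨?_, ?_⟩, rfl⟩
      · exact Finset.mem_product.2 ⟨hg1, Finset.mem_product.2 ⟨ha, hj⟩⟩
      · intro f hf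
        have h1 := (Finset.mem_filter.1 (h f hf)).2
        have h2 : g + (lam : ℤ) * (a + j * f) = (g + lam * a) + (lam * j) * f := by ring
        rw [h2] at h1
        exact h1
    exact_mod_cast (Finset.card_le_card hsub).trans Finset.card_image_le
  have hdouble : (Fintype.card Ω : ℝ) * (l * n / 4) ≤ ∑ p ∈ P,
      (#(Finset.univ.filter fun ω : Ω => Q ω p) : ℝ) := by
    have h1 : ∑ p ∈ P, #(Finset.univ.filter fun ω : Ω => Q ω p) =
        ∑ ω : Ω, #(P.filter fun p : ℤ × ℤ × ℤ => Q ω p) := by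
      simp_rw [Finset.card_filter]
      exact Finset.sum_comm
    have h2 : ∑ p ∈ P, (#(Finset.univ.filter fun ω : Ω => Q ω p) : ℝ) =
        ∑ ω : Ω, (#(P.filter fun p : ℤ × ℤ × ℤ => Q ω p) : ℝ) := by
      exact_mod_cast h1
    rw [h2, ← Finset.card_univ, ← nsmul_eq_mul, ← Finset.sum_const]
    exact Finset.sum_le_sum fun ω _ => hconf ω
  have hex : ∃ p ∈ P, (Fintype.card Ω : ℝ) ≤ (4 * ((2 * s + 1) * (2 * s)) / l + 1) *
      #(Finset.univ.filter fun ω : Ω => Q ω p) := by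
    by_contra hcon
    push Not at hcon
    have hΩ : (0 : ℝ) < Fintype.card Ω := by exact_mod_cast Fintype.card_pos
    have h1 : ∀ p ∈ P, (#(Finset.univ.filter fun ω : Ω => Q ω p) : ℝ) ≤
        Fintype.card Ω / (4 * ((2 * s + 1) * (2 * s)) / l + 1) := by
      intro p hp
      rw [le_div_iff₀ (by positivity)]
      linarith [hcon p hp]
    have h2 := hdouble.trans (Finset.sum_le_sum h1)
    rw [Finset.sum_const, nsmul_eq_mul, hPc] at h2
    have h3 : (n : ℝ) * ((2 * s + 1) * (2 * s)) *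
        (Fintype.card Ω / (4 * ((2 * s + 1) * (2 * s)) / l + 1)) <
        Fintype.card Ω * (l * n / 4) := by
      have h4 : (0 : ℝ) < 4 * ((2 * s + 1) * (2 * s)) / l + 1 := by positivity
      rw [mul_div_assoc', div_lt_iff₀ h4]
      have h5 : Fintype.card Ω * (l * n / 4) * (4 * ((2 * (s : ℝ) + 1) * (2 * s)) / l + 1) =
          (n : ℝ) * ((2 * s + 1) * (2 * s)) * Fintype.card Ω + Fintype.card Ω * (l * n / 4) := by
        field_simp
      rw [h5]
      have : 0 < Fintype.card Ω * (l * n / 4) := by positivity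
      linarith
    linarith
  obtain ⟨p, hp, hpc⟩ := hex
  have hp2 := Finset.mem_Icc.1 (Finset.mem_product.1 (Finset.mem_product.1 hp).2).2
  have hle : (lam : ℤ) ≤ lam * p.2.2 := by
    have : (0 : ℤ) ≤ lam := Int.natCast_nonneg lam
    nlinarith [hp2.1]
  refine ⟨p.1 + lam * p.2.1, lam * p.2.2, _, ?_, ?_, hpc, fun ω hω => (Finset.mem_filter.1 hω).2⟩
  · refine hlam3.trans ?_
    have : ((lam : ℤ) : ℝ) ≤ ((lam * p.2.2 : ℤ) : ℝ) := by exact_mod_cast hle
    simpa using this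
  · have : (1 : ℤ) ≤ lam := by exact_mod_cast hlam4
    linarith

end Pool.Agent.U597.ID
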