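import Pool.Agent.W904.AK.Final
import Pool.Agent.W975.HD.Geo1
import Pool.Agent.U597.ID.Pat

/-!
# The counting inequality for lines with sets of heights of fixed density, from an entropy
inequality for sums and differences
-/

set_option autoImplicit false

open Finset
open scoped Classical

namespace Pool.Agent.U597.ID
open Pool.Agent.W904.AK Pool.Agent.W46.HD

/-- rounding: the number of values of `N ⌊X⌋ + F ⌊Y⌋` -/
theorem image_bound (d : ℕ) {Θ : Type} [Fintype Θ] (X Y : Θ → Fin d → ℝ) (N F : ℤ) (hN : 0 < N)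
    (C : Finset (Fin d → ℤ))
    (hC : ∀ x, (fun i => ⌊X x i + ((F : ℝ) / N) * Y x i⌋) ∈ C) :
    #(Finset.univ.image fun x : Θ => fun i : Fin d => N * ⌊X x i⌋ + F * ⌊Y x i⌋) ≤
      #C * (2 * (N + |F|).toNat + 1) ^ d := by
  have hN' : (0 : ℝ) < N := by exact_mod_cast hN
  have hb : (((N + |F|).toNat : ℕ) : ℤ) = N + |F| :=
    Int.toNat_of_nonneg (by have := abs_nonneg F; linarith)
  have hsub : (Finset.univ.image fun x : Θ => fun i : Fin d => N * ⌊X x i⌋ + F * ⌊Y x i⌋) ⊆
      (C ×ˢ Fintype.piFinset (fun _ : Fin d => Finset.Icc (-(((N + |F|).toNat : ℕ) : ℤ))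
        (((N + |F|).toNat : ℕ) : ℤ))).image
        (fun z : (Fin d → ℤ) × (Fin d → ℤ) => fun i : Fin d => N * z.1 i + z.2 i) := by
    intro z hz
    obtain ⟨x, -, rfl⟩ := Finset.mem_image.1 hz
    rw [Finset.mem_image]
    refine ⟨(fun i => ⌊X x i + ((F : ℝ) / N) * Y x i⌋, fun i => N * ⌊X x i⌋ + F * ⌊Y x i⌋ -
      N * ⌊X x i + ((F : ℝ) / N) * Y x i⌋), ?_, ?_⟩
    · rw [Finset.mem_product]
      refine ⟨hC x, ?_⟩
      rw [Fintype.mem_piFinset]
      intro i
      rw [Finset.mem_Icc, hb]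
      have h1 := Int.floor_add_fract (X x i)
      have h2 := Int.floor_add_fract (Y x i)
      have h3 := Int.floor_add_fract (X x i + ((F : ℝ) / N) * Y x i)
      have e : ((N * ⌊X x i⌋ + F * ⌊Y x i⌋ - N * ⌊X x i + ((F : ℝ) / N) * Y x i⌋ : ℤ) : ℝ) =
          N * Int.fract (X x i + ((F : ℝ) / N) * Y x i) - N * Int.fract (X x i) -
            F * Int.fract (Y x i) := by
        push_cast
        have e1 : (⌊X x i⌋ : ℝ) = X x i - Int.fract (X x i) := by linarith
        have e2 : (⌊Y x i⌋ : ℝ) = Y x i - Int.fract (Y x i) := by linarith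
        have e3 : (⌊X x i + ((F : ℝ) / N) * Y x i⌋ : ℝ) = X x i + ((F : ℝ) / N) * Y x i -
          Int.fract (X x i + ((F : ℝ) / N) * Y x i) := by linarith
        rw [e1, e2, e3]
        field_simp
        ring
      have f1 := Int.fract_nonneg (X x i)
      have f2 := Int.fract_lt_one (X x i)
      have f3 := Int.fract_nonneg (Y x i)
      have f4 := Int.fract_lt_one (Y x i)
      have f5 := Int.fract_nonneg (X x i + ((F : ℝ) / N) * Y x i)
      have f6 := Int.fract_lt_one (X x i + ((F : ℝ) / N) * Y x i)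
      have g1 : |(F : ℝ) * Int.fract (Y x i)| ≤ |(F : ℝ)| := by
        rw [abs_mul, abs_of_nonneg f3]
        have := abs_nonneg (F : ℝ)
        nlinarith
      have g2 := abs_le.1 g1
      have g3 : (N : ℝ) * Int.fract (X x i) ≤ N := by nlinarith
      have g4 : (N : ℝ) * Int.fract (X x i + ((F : ℝ) / N) * Y x i) ≤ N := by nlinarith
      have g5 : 0 ≤ (N : ℝ) * Int.fract (X x i) := by positivity
      have g6 : 0 ≤ (N : ℝ) * Int.fract (X x i + ((F : ℝ) / N) * Y x i) := by positivity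
      constructor
      · have : ((-(N + |F|) : ℤ) : ℝ) ≤ ((N * ⌊X x i⌋ + F * ⌊Y x i⌋ -
            N * ⌊X x i + ((F : ℝ) / N) * Y x i⌋ : ℤ) : ℝ) := by
          rw [e]
          push_cast
          linarith [g2.2]
        exact_mod_cast this
      · have : ((N * ⌊X x i⌋ + F * ⌊Y x i⌋ -
            N * ⌊X x i + ((F : ℝ) / N) * Y x i⌋ : ℤ) : ℝ) ≤ ((N + |F| : ℤ) : ℝ) := by
          rw [e]
          push_cast
          linarith [g2.1]
        exact_mod_cast this
    · funext i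
      ring
  refine (Finset.card_le_card hsub).trans (Finset.card_image_le.trans ?_)
  rw [Finset.card_product, Fintype.card_piFinset, Finset.prod_const, Finset.card_univ,
    Fintype.card_fin]
  apply le_of_eq
  congr 2
  rw [Int.card_Icc]
  omega

/-- a common denominator -/
theorem common_den (T : Finset ℚ) : ∃ (N : ℤ) (F : ℚ → ℤ), 0 < N ∧
    ∀ t ∈ T, (F t : ℚ) = t * N := by
  refine ⟨((∏ t ∈ T, t.den : ℕ) : ℤ), fun t => t.num * ((∏ s ∈ T.erase t, s.den : ℕ) : ℤ), ?_, ?_⟩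
  · exact_mod_cast Finset.prod_pos fun (t : ℚ) _ => t.den_pos
  · intro t ht
    have h1 : (t.den : ℚ) * ((∏ s ∈ T.erase t, s.den : ℕ) : ℚ) = ((∏ s ∈ T, s.den : ℕ) : ℚ) := by
      exact_mod_cast Finset.mul_prod_erase T (fun s : ℚ => s.den) ht
    push_cast at h1 ⊢
    rw [← h1, ← mul_assoc, Rat.mul_den_eq_num]

/-- The counting inequality for lines with sets of heights of density at least `l`. -/
theorem counting {c : ℝ} (hc : 0 ≤ c) {T : Finset ℚ} {w : ℚ → ℝ} (hO : Oracle c T w) (d : ℕ)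
    (l : ℝ) (hl : 0 < l) : ∃ C : ℝ, 0 ≤ C ∧ ∀ (n : ℕ) (Ω : Type) [Fintype Ω] [Nonempty Ω]
    (A D : Ω → Fin d → ℝ), IsFam n D → ∀ E : Ω → Finset (Fin n),
    (∀ ω, l * n ≤ (#(E ω) : ℝ)) →
    Real.log (Fintype.card Ω) ≤ c * Real.log ((∑ j : Fin n,
      (#((Finset.univ.filter fun ω => j ∈ E ω).image (cell A D j)) : ℝ)) / n) + C := by
  obtain ⟨hw0, hw1, hO⟩ := hO
  obtain ⟨N, F, hN, hF⟩ := common_den T
  have hNR : (0 : ℝ) < N := by exact_mod_cast hN
  obtain ⟨c0, C1, n0, hc0, hC1, hpat⟩ := pattern (T.image F) (l / 2) (by positivity)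
  obtain ⟨K, hK⟩ : ∃ K : ℝ, K = ∑ t ∈ T, (((2 * (N + |F t|).toNat + 1) ^ d : ℕ) : ℝ) + 1 := ⟨_, rfl⟩
  have hK1 : 1 ≤ K := by
    rw [hK]
    have : 0 ≤ ∑ t ∈ T, (((2 * (N + |F t|).toNat + 1) ^ d : ℕ) : ℝ) :=
      Finset.sum_nonneg fun _ _ => Nat.cast_nonneg _
    linarith
  have hKt : ∀ t ∈ T, (((2 * (N + |F t|).toNat + 1) ^ d : ℕ) : ℝ) ≤ K := by
    intro t ht
    rw [hK]
    have := Finset.single_le_sum (f := fun t => (((2 * (N + |F t|).toNat + 1) ^ d : ℕ) : ℝ))
      (fun _ _ => Nat.cast_nonneg _) ht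
    linarith
  obtain ⟨R, hR⟩ : ∃ R : ℝ, R = d * (3 + Real.log (max 1 (1 / c0))) := ⟨_, rfl⟩
  refine ⟨|c * Real.log (2 / l * K)| + |R| + |Real.log C1| + |d * (1 + Real.log n0)| +
    |c * Real.log l|, by positivity, ?_⟩
  intro n Ω _ _ A D hD E hE
  have hn1 : 1 ≤ n := hD.pos
  have hnR : (0 : ℝ) < n := by exact_mod_cast hn1
  obtain ⟨a, ha⟩ : ∃ a : Fin n → ℝ, a = fun j => (#((Finset.univ.filter fun ω => j ∈ E ω).image
    (cell A D j)) : ℝ) := ⟨_, rfl⟩
  have hasum : (∑ j : Fin n, (#((Finset.univ.filter fun ω => j ∈ E ω).image (cell A D j)) : ℝ)) =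
      ∑ j, a j := by rw [ha]
  rw [hasum]
  obtain ⟨μ, hμ⟩ : ∃ μ : ℝ, μ = (∑ j, a j) / n := ⟨_, rfl⟩
  rw [← hμ]
  have ha0 : ∀ j, 0 ≤ a j := fun j => by rw [ha]; exact Nat.cast_nonneg _
  have hlμ : l ≤ μ := by
    obtain ⟨ω0⟩ := ‹Nonempty Ω›
    rw [hμ, le_div_iff₀ hnR]
    refine (hE ω0).trans ?_
    have h1 : (#(E ω0) : ℝ) = ∑ j : Fin n, if j ∈ E ω0 then (1 : ℝ) else 0 := by
      rw [Finset.sum_ite_mem, Finset.univ_inter, Finset.sum_const, nsmul_eq_mul, mul_one]
    rw [h1]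
    refine Finset.sum_le_sum fun j _ => ?_
    split_ifs with hj
    · simp only [ha]
      have : 0 < #((Finset.univ.filter fun ω => j ∈ E ω).image (cell A D j)) :=
        Finset.card_pos.2 ⟨_, Finset.mem_image_of_mem _ (Finset.mem_filter.2
          ⟨Finset.mem_univ ω0, hj⟩)⟩
      exact_mod_cast this
    · exact ha0 j
  have hμ0 : 0 < μ := hl.trans_le hlμ
  have hlogμ : c * Real.log l ≤ c * Real.log μ :=
    mul_le_mul_of_nonneg_left (Real.log_le_log hl hlμ) hc
  by_cases hsmall : n < n0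
  · have h1 := Pool.Agent.W975.HD.G0 d n Ω D hD
    have h2 : Real.log n ≤ Real.log n0 :=
      Real.log_le_log hnR (by exact_mod_cast hsmall.le)
    have h3 : (d : ℝ) * (1 + Real.log n) ≤ d * (1 + Real.log n0) := by gcongr
    have h4 := le_abs_self ((d : ℝ) * (1 + Real.log n0))
    have h5 := neg_abs_le (c * Real.log l)
    have h6 := abs_nonneg (c * Real.log (2 / l * K))
    have h7 := abs_nonneg R
    have h8 := abs_nonneg (Real.log C1)
    linarith
  push Not at hsmall
  -- heavy heights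
  obtain ⟨J, hJ⟩ : ∃ J : Finset (Fin n), J = Finset.univ.filter fun j => 2 / l * μ < a j := ⟨_, rfl⟩
  have hJc : (#J : ℝ) ≤ l / 2 * n := by
    have h1 : (#J : ℝ) * (2 / l * μ) ≤ ∑ j, a j := by
      calc (#J : ℝ) * (2 / l * μ) = ∑ _j ∈ J, (2 / l * μ) := by
            rw [Finset.sum_const, nsmul_eq_mul]
        _ ≤ ∑ j ∈ J, a j := Finset.sum_le_sum fun j hj => by
            rw [hJ] at hj
            exact (Finset.mem_filter.1 hj).2.le
        _ ≤ ∑ j, a j := Finset.sum_le_univ_sum_of_nonneg ha0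
    have h2 : ∑ j, a j = μ * n := by rw [hμ]; field_simp
    rw [h2] at h1
    have h3 : (#J : ℝ) * (2 / l) ≤ n := by
      have : (#J : ℝ) * (2 / l) * μ ≤ n * μ := by linarith
      exact le_of_mul_le_mul_right this hμ0
    have h4 : (#J : ℝ) * (2 / l) = #J * 2 / l := by ring
    rw [h4, div_le_iff₀ hl] at h3
    linarith
  let E' : Ω → Finset ℤ := fun ω => (E ω \ J).image (fun j : Fin n => ((j : ℕ) : ℤ))
  have hE'c : ∀ ω, l / 2 * n ≤ (#(E' ω) : ℝ) := by
    intro ω
    have h1 : #(E' ω) = #(E ω \ J) := by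
      apply Finset.card_image_of_injective
      intro x y h
      have h' : ((x : ℕ) : ℤ) = ((y : ℕ) : ℤ) := h
      exact Fin.ext (by exact_mod_cast h')
    have h2 : #(E ω) ≤ #(E ω \ J) + #J := by
      have := Finset.le_card_sdiff J (E ω)
      omega
    have h3 : (#(E ω) : ℝ) ≤ #(E ω \ J) + #J := by exact_mod_cast h2
    rw [h1]
    have := hE ω
    linarith
  obtain ⟨j0, m, T', hm1, hm2, hT', hpt⟩ := hpat n hsmall Ω E' (by
    intro ω x hx
    obtain ⟨j, -, rfl⟩ := Finset.mem_image.1 hx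
    rw [Finset.mem_Ico]
    constructor
    · exact Int.natCast_nonneg _
    · exact_mod_cast j.2) hE'c
  have hΩpos : (0 : ℝ) < Fintype.card Ω := by exact_mod_cast Fintype.card_pos
  have hT'pos : (0 : ℝ) < #T' := by
    by_contra hcon
    push Not at hcon
    have : C1 * (#T' : ℝ) ≤ 0 := mul_nonpos_of_nonneg_of_nonpos hC1.le hcon
    linarith
  have hT'ne : T'.Nonempty := Finset.card_pos.1 (by exact_mod_cast hT'pos)
  -- the directions, rounded
  let V : Finset (Fin d → ℤ) := T'.image (fun ω => fun i => ⌊((N * m : ℤ) : ℝ) * D ω i⌋)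
  have hfib : ∀ v ∈ V, #(T'.filter fun ω => (fun i => ⌊((N * m : ℤ) : ℝ) * D ω i⌋) = v) ≤
      ⌊Real.exp R⌋₊ := by
    intro v hv
    have h1 := Pool.Agent.W975.HD.G3 d n Ω D hD (N * m) 0 v
      (T'.filter fun ω => (fun i => ⌊((N * m : ℤ) : ℝ) * D ω i⌋) = v) (by
        intro ω hω
        refine ⟨0, fun i => by simp, fun i => ?_⟩
        have := congrFun (Finset.mem_filter.1 hω).2 i
        simpa using this)
    have h2 : phi n (N * m) ≤ Real.log (max 1 (1 / c0)) := by
      unfold phi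
      apply Real.log_le_log (by positivity)
      refine max_le_max le_rfl ?_
      rw [div_le_div_iff₀ (by positivity) hc0]
      have h3 : ((m : ℤ) : ℝ) ≤ |((N * m : ℤ) : ℝ)| := by
        refine le_trans ?_ (le_abs_self _)
        have : m ≤ N * m := by nlinarith
        exact_mod_cast this
      have h4 : |((N * m : ℤ) : ℝ)| ≤ max 1 |((N * m : ℤ) : ℝ)| := le_max_right _ _
      linarith
    have h3 : (d : ℝ) * (3 + phi n (N * m)) ≤ R := by
      rw [hR]
      gcongr
    rw [Nat.le_floor_iff (Real.exp_pos R).le]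
    have h4 : 0 < #(T'.filter fun ω => (fun i => ⌊((N * m : ℤ) : ℝ) * D ω i⌋) = v) := by
      obtain ⟨ω, hω, hωv⟩ := Finset.mem_image.1 hv
      exact Finset.card_pos.2 ⟨ω, Finset.mem_filter.2 ⟨hω, hωv⟩⟩
    rw [← Real.log_le_iff_le_exp (by exact_mod_cast h4)]
    exact h1.trans h3
  have hTV : (#T' : ℝ) ≤ Real.exp R * #V := by
    have h1 := Finset.card_le_mul_card_image (f := fun ω => fun i => ⌊((N * m : ℤ) : ℝ) * D ω i⌋)
      T' ⌊Real.exp R⌋₊ hfib
    have h2 : (#T' : ℝ) ≤ (⌊Real.exp R⌋₊ : ℝ) * #V := by exact_mod_cast h1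
    refine h2.trans ?_
    gcongr
    exact Nat.floor_le (Real.exp_pos R).le
  have hrep : ∀ b : {v // v ∈ V}, ∃ ω ∈ T', (fun i => ⌊((N * m : ℤ) : ℝ) * D ω i⌋) = b.1 :=
    fun b => Finset.mem_image.1 b.2
  choose rep hrepT hrepV using hrep
  have hVne : Nonempty {v // v ∈ V} := by
    obtain ⟨ω, hω⟩ := hT'ne
    exact ⟨⟨_, Finset.mem_image_of_mem _ hω⟩⟩
  obtain ⟨Xv, hXv⟩ : ∃ Xv : {v // v ∈ V} → Fin d → ℚ, Xv = fun b i =>
    ((⌊A (rep b) i + (j0 : ℝ) * D (rep b) i⌋ : ℤ) : ℚ) := ⟨_, rfl⟩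
  obtain ⟨Dv, hDv⟩ : ∃ Dv : {v // v ∈ V} → Fin d → ℚ, Dv = fun b i => ((b.1 i : ℤ) : ℚ) :=
    ⟨_, rfl⟩
  have hDinj : Function.Injective Dv := by
    intro b b' h
    apply Subtype.ext
    funext i
    have := congrFun h i
    simp only [hDv] at this
    exact_mod_cast this
  have hlaw := unif_law {v // v ∈ V}
  have hmain := hO {v // v ∈ V} (Fin d → ℚ) (unif {v // v ∈ V}) Xv Dv hlaw
    (fun x y _ _ h => by rw [hDinj h])
  have hH : H (unif {v // v ∈ V}) Dv = Real.log #V := by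
    rw [H_unif _ hDinj, Fintype.card_coe]
  rw [hH] at hmain
  have hbd : ∀ t ∈ T, H (unif {v // v ∈ V}) (fun x => Xv x + t • Dv x) ≤
      Real.log (2 / l * K * μ) := by
    intro t ht
    obtain ⟨ω0, hω0⟩ := hT'ne
    have hFT : F t ∈ T.image F := Finset.mem_image_of_mem _ ht
    obtain ⟨jt, hjt, hjteq⟩ := Finset.mem_image.1 (hpt ω0 hω0 (F t) hFT)
    have hjtR : ((jt : ℕ) : ℝ) = j0 + m * F t := by
      have : (((jt : ℕ) : ℤ) : ℝ) = ((j0 + m * F t : ℤ) : ℝ) := by rw [← hjteq]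
      push_cast at this
      exact this
    have hjtJ : a jt ≤ 2 / l * μ := by
      have h1 := (Finset.mem_sdiff.1 hjt).2
      rw [hJ, Finset.mem_filter] at h1
      push Not at h1
      exact h1 (Finset.mem_univ _)
    have hall : ∀ ω ∈ T', jt ∈ E ω := by
      intro ω hω
      obtain ⟨j', hj', hj'eq⟩ := Finset.mem_image.1 (hpt ω hω (F t) hFT)
      have h1 : j' = jt := by
        apply Fin.ext
        have : ((j' : ℕ) : ℤ) = ((jt : ℕ) : ℤ) := by rw [hj'eq, ← hjteq]
        exact_mod_cast this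
      rw [← h1]
      exact (Finset.mem_sdiff.1 hj').1
    have h1 := image_bound d (fun b : {v // v ∈ V} => fun i => A (rep b) i + (j0 : ℝ) * D (rep b) i)
      (fun b : {v // v ∈ V} => fun i => ((N * m : ℤ) : ℝ) * D (rep b) i) N (F t) hN
      ((Finset.univ.filter fun ω => jt ∈ E ω).image (cell A D jt)) (by
        intro b
        rw [Finset.mem_image]
        refine ⟨rep b, Finset.mem_filter.2 ⟨Finset.mem_univ _, hall _ (hrepT b)⟩, ?_⟩
        funext i
        unfold cell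
        rw [hjtR]
        congr 1
        push_cast
        field_simp
        ring)
    have h2 : (Finset.univ.image (fun x : {v // v ∈ V} => Xv x + t • Dv x)) ⊆
        (Finset.univ.image fun b : {v // v ∈ V} => fun i : Fin d =>
          N * ⌊A (rep b) i + (j0 : ℝ) * D (rep b) i⌋ +
            F t * ⌊((N * m : ℤ) : ℝ) * D (rep b) i⌋).image
          (fun z : Fin d → ℤ => fun i => (z i : ℚ) / N) := by
      intro z hz
      obtain ⟨b, -, rfl⟩ := Finset.mem_image.1 hz
      rw [Finset.mem_image]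
      refine ⟨_, Finset.mem_image_of_mem _ (Finset.mem_univ b), ?_⟩
      funext i
      have h3 : (b.1 i : ℤ) = ⌊((N * m : ℤ) : ℝ) * D (rep b) i⌋ := (congrFun (hrepV b) i).symm
      rw [hXv, hDv]
      simp only [Pi.add_apply, Pi.smul_apply, smul_eq_mul]
      rw [h3]
      have hN0 : (N : ℚ) ≠ 0 := by exact_mod_cast hN.ne'
      push_cast
      rw [hF t ht]
      field_simp
    have h4 : #(Finset.univ.image (fun x : {v // v ∈ V} => Xv x + t • Dv x)) ≤
        #((Finset.univ.filter fun ω => jt ∈ E ω).image (cell A D jt)) *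
          (2 * (N + |F t|).toNat + 1) ^ d :=
      (Finset.card_le_card h2).trans (Finset.card_image_le.trans h1)
    have h5 : (#(Finset.univ.image (fun x : {v // v ∈ V} => Xv x + t • Dv x)) : ℝ) ≤
        2 / l * K * μ := by
      have h6 : (#(Finset.univ.image (fun x : {v // v ∈ V} => Xv x + t • Dv x)) : ℝ) ≤
          a jt * (((2 * (N + |F t|).toNat + 1) ^ d : ℕ) : ℝ) := by
        simp only [ha]
        exact_mod_cast h4
      calc _ ≤ _ := h6
        _ ≤ (2 / l * μ) * K := by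
            apply mul_le_mul hjtJ (hKt t ht) (Nat.cast_nonneg _) (by positivity)
        _ = _ := by ring
    refine (H_le_log_card hlaw _ (Finset.univ.image (fun x : {v // v ∈ V} => Xv x + t • Dv x))
      (fun x _ => Finset.mem_image_of_mem _ (Finset.mem_univ x))).trans ?_
    apply Real.log_le_log _ h5
    obtain ⟨b0⟩ := hVne
    have : 0 < #(Finset.univ.image (fun x : {v // v ∈ V} => Xv x + t • Dv x)) :=
      Finset.card_pos.2 ⟨_, Finset.mem_image_of_mem _ (Finset.mem_univ b0)⟩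
    exact_mod_cast this
  have hVlog : Real.log #V ≤ c * Real.log (2 / l * K * μ) := by
    refine hmain.trans (mul_le_mul_of_nonneg_left ?_ hc)
    calc ∑ t ∈ T, w t * H (unif {v // v ∈ V}) (fun x => Xv x + t • Dv x)
        ≤ ∑ t ∈ T, w t * Real.log (2 / l * K * μ) :=
          Finset.sum_le_sum fun t ht => mul_le_mul_of_nonneg_left (hbd t ht) (hw0 t ht)
      _ = _ := by rw [← Finset.sum_mul, hw1, one_mul]
  have hVpos : (0 : ℝ) < #V := by
    have : 0 < #V := by
      rw [← Fintype.card_coe]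
      exact Fintype.card_pos
    exact_mod_cast this
  have hΩlog : Real.log (Fintype.card Ω) ≤ Real.log C1 + R + Real.log #V := by
    have h1 : (Fintype.card Ω : ℝ) ≤ C1 * (Real.exp R * #V) :=
      hT'.trans (mul_le_mul_of_nonneg_left hTV hC1.le)
    have h2 := Real.log_le_log hΩpos h1
    rw [Real.log_mul hC1.ne' (by positivity), Real.log_mul (Real.exp_pos R).ne' hVpos.ne',
      Real.log_exp] at h2
    linarith
  have hlog3 : Real.log (2 / l * K * μ) = Real.log (2 / l * K) + Real.log μ :=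
    Real.log_mul (by positivity) hμ0.ne'
  rw [hlog3, mul_add] at hVlog
  have g1 := le_abs_self (c * Real.log (2 / l * K))
  have g2 := le_abs_self R
  have g3 := le_abs_self (Real.log C1)
  have g4 := abs_nonneg ((d : ℝ) * (1 + Real.log n0))
  have g5 := abs_nonneg (c * Real.log l)
  linarith

end Pool.Agent.U597.ID
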