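import Pool.Agent.Y674.HK.Haus
import Pool.Agent.U597.ID.CL

/-!
# Covers with diameters in a range `[δ ^ M, δ]` of sets with thick lines in many directions
-/

set_option autoImplicit false

open Finset MeasureTheory
open scoped Classical ENNReal NNReal

namespace Pool.Agent.U597.ID
open Pool.Agent.W46.HD Pool.Agent.W605.HD

/-- the numerical part -/
theorem numericI {c C L x1 δb W S Nn e : ℝ} {d k : ℕ} (hc : 1 ≤ c) (hL : 1 ≤ L) (hx1 : 0 < x1)
    (hδ0 : 0 < δb) (hW : x1 * ((2 : ℝ) ^ k) ^ d ≤ W) (hS1 : 1 ≤ S) (hS : S ≤ 4 ^ (d + 1) * Nn)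
    (hD : Real.log W ≤ c * Real.log (S / ((2 ^ k : ℕ) : ℝ)) + C)
    (hk : (1 / 2 : ℝ) ^ (k + 1) < L * δb) :
    Real.exp ((Real.log x1 - C) / c - (d + 1) * Real.log 4 - (1 + d / c) * Real.log (2 * L)) *
      δb ^ (e - (1 + d / c)) ≤ Nn * δb ^ e := by
  have hc0 : 0 < c := by linarith
  have hN : 0 < Nn := by
    by_contra hcon
    push Not at hcon
    have : (4 : ℝ) ^ (d + 1) * Nn ≤ 0 := mul_nonpos_of_nonneg_of_nonpos (by positivity) hcon
    linarith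
  have h1 : Real.log x1 + d * (k * Real.log 2) ≤ Real.log W := by
    have h2 := Real.log_le_log (by positivity) hW
    rw [Real.log_mul hx1.ne' (by positivity), Real.log_pow, Real.log_pow] at h2
    exact h2
  have h2 : Real.log (S / ((2 ^ k : ℕ) : ℝ)) = Real.log S - k * Real.log 2 := by
    rw [Real.log_div (by linarith) (by positivity)]
    push_cast
    rw [Real.log_pow]
  have h3 : Real.log S ≤ (d + 1) * Real.log 4 + Real.log Nn := by
    have h4 := Real.log_le_log (by linarith) hS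
    rw [Real.log_mul (by positivity) hN.ne', Real.log_pow] at h4
    push_cast at h4
    exact h4
  have h4 : -Real.log (2 * L) - Real.log δb < k * Real.log 2 := by
    have h5 := Real.log_lt_log (by positivity) hk
    rw [Real.log_pow, Real.log_mul (by linarith) hδ0.ne', one_div, Real.log_inv] at h5
    rw [Real.log_mul (by norm_num) (by linarith)]
    push_cast at h5
    linarith
  rw [h2] at hD
  have h5 : (Real.log x1 - C) / c + (1 + d / c) * (k * Real.log 2) ≤ Real.log S := by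
    have h6 : (Real.log x1 - C) + (c + d) * (k * Real.log 2) ≤ c * Real.log S := by linarith
    have h7 : (Real.log x1 - C) / c + (1 + d / c) * (k * Real.log 2) =
        ((Real.log x1 - C) + (c + d) * (k * Real.log 2)) / c := by
      field_simp
    rw [h7, div_le_iff₀ hc0]
    linarith
  have h6 : (1 + (d : ℝ) / c) * (-Real.log (2 * L) - Real.log δb) ≤ (1 + d / c) * (k * Real.log 2) :=
    mul_le_mul_of_nonneg_left h4.le (by positivity)
  have h7 : (Real.log x1 - C) / c - (d + 1) * Real.log 4 - (1 + d / c) * Real.log (2 * L) -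
      (1 + d / c) * Real.log δb ≤ Real.log Nn := by linarith
  rw [← Real.exp_log hN, Real.rpow_def_of_pos hδ0, Real.rpow_def_of_pos hδ0, ← Real.exp_add,
    ← Real.exp_add, Real.exp_le_exp]
  have h8 : Real.log δb * (e - (1 + d / c)) = Real.log δb * e - (1 + d / c) * Real.log δb := by ring
  rw [h8]
  linarith

/-- blocks of scales -/
theorem block {δ η r : ℝ} (M : ℕ) (hM : 1 ≤ M) (h1 : δ ^ ((1 + η) ^ M) ≤ r)
    (h2 : r ≤ δ) : ∃ b < M, δ ^ ((1 + η) ^ (b + 1)) ≤ r ∧ r ≤ δ ^ ((1 + η) ^ b) := by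
  have hex : ∃ b : ℕ, δ ^ ((1 + η) ^ (b + 1)) ≤ r := ⟨M - 1, by
    rw [Nat.sub_add_cancel hM]; exact h1⟩
  refine ⟨Nat.find hex, ?_, Nat.find_spec hex, ?_⟩
  · have h3 : Nat.find hex ≤ M - 1 := Nat.find_min' hex (by
      rw [Nat.sub_add_cancel hM]; exact h1)
    omega
  · rcases Nat.eq_zero_or_pos (Nat.find hex) with h3 | h3
    · rw [h3, pow_zero, Real.rpow_one]
      exact h2
    · have h4 := Nat.find_min hex (m := Nat.find hex - 1) (by omega)
      rw [Nat.sub_add_cancel h3] at h4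
      push Not at h4
      exact h4.le

/-- The main step: a uniform lower bound for covers with diameters in `[δ ^ ((1 + η) ^ M), δ]`. -/
theorem core (d : ℕ) {c : ℝ} (hc : 1 ≤ c)
    (hCL : ∀ l : ℝ, 0 < l → ∃ C : ℝ, 0 ≤ C ∧ ∀ (n : ℕ) (Ω : Type) [Fintype Ω] [Nonempty Ω]
      (A D : Ω → Fin d → ℝ), IsFam n D → ∀ E : Ω → Finset (Fin n),
      (∀ ω, l * n ≤ (#(E ω) : ℝ)) →
      Real.log (Fintype.card Ω) ≤ c * Real.log ((∑ j : Fin n,
        (#((Finset.univ.filter fun ω => j ∈ E ω).image (cell A D j)) : ℝ)) / n) + C)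
    (M : ℕ) (hM : 1 ≤ M) (η s y1 y2 L : ℝ) (hη : 0 < η) (hs : 0 ≤ s) (hy1 : 0 < y1) (hy2 : 0 < y2)
    (hL : 1 ≤ L) (hse : (1 + η) * s < 1 + d / c) :
    ∃ δ0 : ℝ, 0 < δ0 ∧ ∀ δ : ℝ, 0 < δ → δ < δ0 → ∀ (h0 : ℝ) (V : Set (Fin d → ℝ))
      (B : (Fin d → ℝ) → Fin d → ℝ), (∀ v ∈ V, ∀ i, 0 ≤ v i ∧ v i ≤ 1) →
      ENNReal.ofReal y1 ≤ volume V → ∀ (ι : Type) (t : ι → Set (EuclideanSpace ℝ (Fin (d + 1))))
      (r : ι → ℝ), (∀ i, δ ^ ((1 + η) ^ M) ≤ r i ∧ r i ≤ δ) →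
      (∀ i, ∀ x ∈ t i, ∀ y ∈ t i, dist x y ≤ L * r i) →
      (∀ v ∈ V, ENNReal.ofReal y2 ≤ volume {τ : ℝ | (0 ≤ τ ∧ τ < 1) ∧
        ∃ i, pt d (h0 + τ) (fun l => B v l + τ * v l) ∈ t i}) →
      1 ≤ ∑' i, ENNReal.ofReal (r i) ^ s := by
  have hc0 : 0 < c := by linarith
  obtain ⟨l, hl⟩ : ∃ l : ℝ, l = y2 * (1 - 1 / 2) / 2 * (1 / 2) ^ M := ⟨_, rfl⟩
  have hl0 : 0 < l := by rw [hl]; norm_num; positivity
  obtain ⟨x1, hx1⟩ : ∃ x : ℝ, x = y1 * (1 - 1 / 2) / 2 * (1 / 2) ^ M := ⟨_, rfl⟩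
  have hx10 : 0 < x1 := by rw [hx1]; norm_num; positivity
  obtain ⟨C, hC0, hC⟩ := hCL l hl0
  obtain ⟨κ, hκ⟩ : ∃ κ : ℝ, κ = Real.exp ((Real.log x1 - C) / c - (d + 1) * Real.log 4 -
    (1 + d / c) * Real.log (2 * L)) := ⟨_, rfl⟩
  have hκ0 : 0 < κ := by rw [hκ]; exact Real.exp_pos _
  obtain ⟨g, hg⟩ : ∃ g : ℝ, g = (1 + d / c) - (1 + η) * s := ⟨_, rfl⟩
  have hg0 : 0 < g := by linarith
  refine ⟨min (min (1 / L) (1 / 2)) (κ ^ (1 / g)), by positivity, ?_⟩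
  intro δ hδ0 hδ h0 V B hV01 hV ι t r hr hdist hthick
  have hδL : δ < 1 / L := lt_of_lt_of_le hδ ((min_le_left _ _).trans (min_le_left _ _))
  have hδ1 : δ < 1 := by
    have := lt_of_lt_of_le hδ ((min_le_left _ _).trans (min_le_right _ _))
    linarith
  have hδκ : δ < κ ^ (1 / g) := lt_of_lt_of_le hδ (min_le_right _ _)
  have hδκ2 : δ ^ g < κ := by
    have h1 := Real.rpow_lt_rpow hδ0.le hδκ hg0
    rwa [← Real.rpow_mul hκ0.le, one_div, inv_mul_cancel₀ hg0.ne', Real.rpow_one] at h1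
  have hblock : ∀ i, ∃ b < M, δ ^ ((1 + η) ^ (b + 1)) ≤ r i ∧ r i ≤ δ ^ ((1 + η) ^ b) :=
    fun i => block M hM (hr i).1 (hr i).2
  choose β hβM hβ1 hβ2 using hblock
  let E : ℕ → (Fin d → ℝ) → Set ℝ := fun b v => {τ : ℝ | (0 ≤ τ ∧ τ < 1) ∧
    ∃ i, β i = b ∧ pt d (h0 + τ) (fun l => B v l + τ * v l) ∈ t i}
  have hmono : ∀ (y : ℝ), 0 < y → ∀ b, b < M →
      y * (1 - 1 / 2) / 2 * (1 / 2) ^ M ≤ y * (1 - 1 / 2) / 2 * (1 / 2) ^ b := by
    intro y hy b hb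
    have h1 : (1 / 2 : ℝ) ^ M ≤ (1 / 2) ^ b :=
      pow_le_pow_of_le_one (by norm_num) (by norm_num) hb.le
    have h2 : 0 ≤ y * (1 - 1 / 2) / 2 := by norm_num; positivity
    exact mul_le_mul_of_nonneg_left h1 h2
  have hEV : ∀ v ∈ V, ∃ b, b < M ∧ ENNReal.ofReal l ≤ volume (E b v) := by
    intro v hv
    obtain ⟨b, hb⟩ := pigeon volume {τ : ℝ | (0 ≤ τ ∧ τ < 1) ∧
        ∃ i, pt d (h0 + τ) (fun l => B v l + τ * v l) ∈ t i} (fun b => E b v) (by
      rintro τ ⟨hτ, i, hi⟩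
      exact Set.mem_iUnion.2 ⟨β i, hτ, i, rfl, hi⟩) y2 (1 / 2) hy2 (by norm_num) (by norm_num)
      (hthick v hv)
    have hbM : b < M := by
      have hne : (E b v).Nonempty := by
        apply nonempty_of_measure_ne_zero (μ := volume)
        intro h
        rw [h, nonpos_iff_eq_zero, ENNReal.ofReal_eq_zero] at hb
        have : 0 < y2 * (1 - 1 / 2) / 2 * (1 / 2) ^ b := by norm_num; positivity
        linarith
      obtain ⟨τ, -, i, hi, -⟩ := hne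
      rw [← hi]
      exact hβM i
    refine ⟨b, hbM, le_trans (ENNReal.ofReal_le_ofReal ?_) hb⟩
    rw [hl]
    exact hmono y2 hy2 b hbM
  obtain ⟨b, hb⟩ := pigeon volume V (fun b => {v | v ∈ V ∧ b < M ∧
    ENNReal.ofReal l ≤ volume (E b v)}) (by
      intro v hv
      obtain ⟨b, hb1, hb2⟩ := hEV v hv
      exact Set.mem_iUnion.2 ⟨b, hv, hb1, hb2⟩) y1 (1 / 2) hy1 (by norm_num) (by norm_num) hV
  have hbM : b < M := by
    have hne : ({v | v ∈ V ∧ b < M ∧ ENNReal.ofReal l ≤ volume (E b v)} :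
        Set (Fin d → ℝ)).Nonempty := by
      apply nonempty_of_measure_ne_zero (μ := volume)
      intro h
      rw [h, nonpos_iff_eq_zero, ENNReal.ofReal_eq_zero] at hb
      have : 0 < y1 * (1 - 1 / 2) / 2 * (1 / 2) ^ b := by norm_num; positivity
      linarith
    obtain ⟨v, -, h, -⟩ := hne
    exact h
  have hbx : ENNReal.ofReal x1 ≤ volume {v | v ∈ V ∧ b < M ∧ ENNReal.ofReal l ≤ volume (E b v)} := by
    refine le_trans (ENNReal.ofReal_le_ofReal ?_) hb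
    rw [hx1]
    exact hmono y1 hy1 b hbM
  obtain ⟨δb, hδb⟩ : ∃ δb : ℝ, δb = δ ^ ((1 + η) ^ b) := ⟨_, rfl⟩
  have hpow1 : (1 : ℝ) ≤ (1 + η) ^ b := one_le_pow₀ (by linarith)
  have hδb0 : 0 < δb := by rw [hδb]; exact Real.rpow_pos_of_pos hδ0 _
  have hδbδ : δb ≤ δ := by
    rw [hδb]
    calc δ ^ ((1 + η) ^ b) ≤ δ ^ (1 : ℝ) := Real.rpow_le_rpow_of_exponent_ge hδ0 hδ1.le hpow1
      _ = δ := Real.rpow_one δ
  obtain ⟨q, hq⟩ : ∃ q : ℝ, q = δb ^ (1 + η) := ⟨_, rfl⟩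
  have hq0 : 0 < q := by rw [hq]; exact Real.rpow_pos_of_pos hδb0 _
  have hqr : ∀ i, β i = b → q ≤ r i := by
    intro i hi
    have h1 := hβ1 i
    rw [hi] at h1
    refine le_trans (le_of_eq ?_) h1
    rw [hq, hδb, ← Real.rpow_mul hδ0.le, pow_succ]
  have hrb : ∀ i, β i = b → r i ≤ δb := by
    intro i hi
    have h1 := hβ2 i
    rw [hi, ← hδb] at h1
    exact h1
  by_contra hcon
  push Not at hcon
  have hcardle : ∀ I : Finset ι, (∀ i ∈ I, β i = b) → (#I : ℝ) * q ^ s ≤ 1 := by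
    intro I hI
    have h1 : (#I : ℝ≥0∞) * ENNReal.ofReal (q ^ s) ≤ 1 := by
      calc (#I : ℝ≥0∞) * ENNReal.ofReal (q ^ s) = ∑ _i ∈ I, ENNReal.ofReal (q ^ s) := by
            rw [Finset.sum_const, nsmul_eq_mul]
        _ ≤ ∑ i ∈ I, ENNReal.ofReal (r i) ^ s := by
            refine Finset.sum_le_sum fun i hi => ?_
            rw [← ENNReal.ofReal_rpow_of_pos hq0]
            exact ENNReal.rpow_le_rpow (ENNReal.ofReal_le_ofReal (hqr i (hI i hi))) hs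
        _ ≤ ∑' i, ENNReal.ofReal (r i) ^ s := ENNReal.sum_le_tsum I
        _ ≤ 1 := hcon.le
    have h2 : ENNReal.ofReal ((#I : ℝ) * q ^ s) ≤ ENNReal.ofReal 1 := by
      rw [ENNReal.ofReal_mul (Nat.cast_nonneg _), ENNReal.ofReal_natCast, ENNReal.ofReal_one]
      exact h1
    exact (ENNReal.ofReal_le_ofReal_iff (by norm_num)).1 h2
  have hqs0 : 0 < q ^ s := Real.rpow_pos_of_pos hq0 _
  have hfin : {i : ι | β i = b}.Finite := by
    by_contra hinf
    obtain ⟨m, hm⟩ := exists_nat_gt (1 / q ^ s)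
    obtain ⟨S, hS1, hS2⟩ := Set.Infinite.exists_subset_card_eq hinf m
    have h1 := hcardle S (fun i hi => hS1 hi)
    rw [hS2] at h1
    rw [div_lt_iff₀ hqs0] at hm
    linarith
  obtain ⟨I, hI⟩ : ∃ I : Finset ι, ∀ i, i ∈ I ↔ β i = b := ⟨hfin.toFinset, fun i => by
    rw [Set.Finite.mem_toFinset]; rfl⟩
  let e := I.equivFin
  let t' : ℕ → Set (EuclideanSpace ℝ (Fin (d + 1))) := fun m =>
    if h : m < #I then t (e.symm ⟨m, h⟩).1 else ∅
  obtain ⟨k, hk1, hk2⟩ := exists_nat_pow_near_of_lt_one (x := L * δb) (y := 1 / 2)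
    (by positivity) (by
      calc L * δb ≤ L * (1 / L) := by gcongr; linarith
        _ = 1 := by field_simp) (by norm_num) (by norm_num)
  obtain ⟨Ω, _, _, A, D, F, hfam, hF, hcard, hS1, hS2⟩ := discrete d k h0
    {v | v ∈ V ∧ b < M ∧ ENNReal.ofReal l ≤ volume (E b v)} (fun v hv => hV01 v hv.1) B t'
    (Finset.range #I) (by
      intro m hm x hx y hy
      have hm' := Finset.mem_range.1 hm
      simp only [t', dif_pos hm'] at hx hy
      have h1 := hdist _ x hx y hy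
      have h2 := hrb _ ((hI _).1 (e.symm ⟨m, hm'⟩).2)
      refine h1.trans (le_trans ?_ hk2)
      gcongr) (E b) (by
      intro v hv τ hτ
      obtain ⟨hτ1, i, hi1, hi2⟩ := hτ
      refine ⟨hτ1, (e ⟨i, (hI i).2 hi1⟩ : ℕ), ?_, ?_⟩
      · rw [Finset.mem_range]
        exact (e ⟨i, (hI i).2 hi1⟩).2
      · have h1 : ((e ⟨i, (hI i).2 hi1⟩ : Fin #I) : ℕ) < #I := (e ⟨i, (hI i).2 hi1⟩).2
        simp only [t', dif_pos h1, Fin.eta, Equiv.symm_apply_apply]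
        exact hi2) x1 l hx10 hl0 hbx (fun v hv => hv.2.2)
  have hD := hC (2 ^ k) Ω A D hfam F hF
  rw [Finset.card_range] at hS2
  have hnum := numericI (e := (1 + η) * s) hc hL hx10 hδb0 hcard hS1 hS2 hD hk1
  rw [← hκ] at hnum
  have h1 : δb ^ ((1 + η) * s) = q ^ s := by
    rw [hq, ← Real.rpow_mul hδb0.le]
  rw [h1] at hnum
  have h2 := hcardle I (fun i hi => (hI i).1 hi)
  have h3 : (1 + η) * s - (1 + d / c) = -g := by rw [hg]; ring
  rw [h3, Real.rpow_neg hδb0.le] at hnum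
  have h4 : δb ^ g ≤ δ ^ g := Real.rpow_le_rpow hδb0.le hδbδ hg0.le
  have h5 : 0 < δb ^ g := Real.rpow_pos_of_pos hδb0 _
  have h6 : 1 < κ * (δb ^ g)⁻¹ := by
    rw [← div_eq_mul_inv, one_lt_div h5]
    exact h4.trans_lt hδκ2
  linarith

end Pool.Agent.U597.ID
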