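import Pool.Agent.TH404.AK.Sdc3
import Pool.Agent.U597.ID.Core

/-!
# Intermediate dimensions of sets with thick lines in many directions
-/

set_option autoImplicit false

open Finset MeasureTheory Filter Topology
open scoped Classical ENNReal NNReal

namespace Pool.Agent.U597.ID
open Pool.Agent.W46.HD Pool.Agent.W605.HD Pool.Agent.Y674.HK

/-- a diagonal function -/
theorem diagonal (ds : ℕ → ℝ) (hds : ∀ m, 0 < ds m) : ∃ M : ℝ → ℕ,
    Tendsto (fun δ => (M δ : ℝ)) (𝓝[>] 0) atTop ∧ ∀ᶠ δ in 𝓝[>] (0 : ℝ), δ < ds (M δ) := by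
  have key : ∀ m : ℕ, ∀ᶠ δ in 𝓝[>] (0 : ℝ), δ < ds m ∧ m ≤ ⌊1 / δ⌋₊ := by
    intro m
    have h1 : (0 : ℝ) < min (ds m) (1 / (m + 1)) := lt_min (hds m) (by positivity)
    filter_upwards [Ioo_mem_nhdsGT h1] with δ hδ
    refine ⟨hδ.2.trans_le (min_le_left _ _), ?_⟩
    apply Nat.le_floor
    rw [le_div_iff₀ hδ.1]
    have h2 : δ < 1 / ((m : ℝ) + 1) := hδ.2.trans_le (min_le_right _ _)
    rw [lt_div_iff₀ (by positivity)] at h2
    nlinarith [hδ.1]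
  refine ⟨fun δ => Nat.findGreatest (fun m => δ < ds m) ⌊1 / δ⌋₊, ?_, ?_⟩
  · rw [tendsto_atTop]
    intro b
    obtain ⟨m, hm⟩ := exists_nat_ge b
    filter_upwards [key m] with δ hδ
    refine hm.trans ?_
    exact_mod_cast Nat.le_findGreatest hδ.2 hδ.1
  · filter_upwards [key 0] with δ hδ
    exact Nat.findGreatest_spec (P := fun m => δ < ds m) hδ.2 hδ.1

/-- The theorem in dimension `d + 1`, from the counting inequality. -/
theorem main (d : ℕ) {c : ℝ} (hc : 1 ≤ c)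
    (hCL : ∀ l : ℝ, 0 < l → ∃ C : ℝ, 0 ≤ C ∧ ∀ (n : ℕ) (Ω : Type) [Fintype Ω] [Nonempty Ω]
      (A D : Ω → Fin d → ℝ), IsFam n D → ∀ E : Ω → Finset (Fin n),
      (∀ ω, l * n ≤ (#(E ω) : ℝ)) →
      Real.log (Fintype.card Ω) ≤ c * Real.log ((∑ j : Fin n,
        (#((Finset.univ.filter fun ω => j ∈ E ω).image (cell A D j)) : ℝ)) / n) + C) :
    ∃ M : ℝ → ℝ, Tendsto M (𝓝[>] 0) atTop ∧
      ∀ U K : Set (EuclideanSpace ℝ (Fin (d + 1))),
      (∀ e ∈ U, ‖e‖ = 1 ∧ ∃ a : EuclideanSpace ℝ (Fin (d + 1)),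
        0 < volume {t : ℝ | a + t • e ∈ K}) →
      (volume : Measure (EuclideanSpace ℝ (Fin (d + 1)))).toSphere
        {e : Metric.sphere (0 : EuclideanSpace ℝ (Fin (d + 1))) 1 |
          (e : EuclideanSpace ℝ (Fin (d + 1))) ∈ U} ≠ 0 →
      ∀ s : ℝ, 0 ≤ s → s < 1 + d / c → ∀ᶠ δ in 𝓝[>] (0 : ℝ),
        ∀ (ι : Type) (t : ι → Set (EuclideanSpace ℝ (Fin (d + 1)))), K ⊆ ⋃ i, t i →
        (∀ i, ENNReal.ofReal (δ ^ M δ) ≤ Metric.ediam (t i) ∧
          Metric.ediam (t i) ≤ ENNReal.ofReal δ) → 1 ≤ ∑' i, Metric.ediam (t i) ^ s := by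
  have hc0 : 0 < c := by linarith
  obtain ⟨σ, hσ⟩ : ∃ σ : ℝ, σ = 1 + d / c := ⟨_, rfl⟩
  have hσ0 : 0 < σ := by rw [hσ]; positivity
  have hseq : ∀ m : ℕ, ∃ N : ℕ, 1 ≤ N ∧ (m : ℝ) ≤ (1 + 1 / ((m : ℝ) + 2)) ^ N := by
    intro m
    obtain ⟨N, hN⟩ := pow_unbounded_of_one_lt (m : ℝ) (y := 1 + 1 / ((m : ℝ) + 2)) (by
      have : (0 : ℝ) < 1 / ((m : ℝ) + 2) := by positivity
      linarith)
    refine ⟨N + 1, by omega, hN.le.trans ?_⟩
    exact pow_le_pow_right₀ (by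
      have : (0 : ℝ) < 1 / ((m : ℝ) + 2) := by positivity
      linarith) (by omega)
  choose N hN1 hN2 using hseq
  have hcore := fun m : ℕ => core d hc hCL (N m) (hN1 m) (1 / ((m : ℝ) + 2))
    (σ * (1 - 1 / ((m : ℝ) + 2))) (1 / ((m : ℝ) + 1)) (1 / ((m : ℝ) + 1)) ((m : ℝ) + 1)
    (by positivity) (by
      have h1 : 1 / ((m : ℝ) + 2) ≤ 1 := by
        rw [div_le_one (by positivity)]
        linarith [(Nat.cast_nonneg m : (0 : ℝ) ≤ m)]
      exact mul_nonneg hσ0.le (by linarith)) (by positivity) (by positivity)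
    (by linarith [(Nat.cast_nonneg m : (0 : ℝ) ≤ m)]) (by
      rw [← hσ]
      have h1 : (0 : ℝ) < 1 / ((m : ℝ) + 2) := by positivity
      nlinarith [mul_pos hσ0 (mul_pos h1 h1)])
  choose ds hds0 hds using hcore
  obtain ⟨Mf, hMf1, hMf2⟩ := diagonal ds hds0
  refine ⟨fun δ => (Mf δ : ℝ), hMf1, ?_⟩
  intro U K hK hU s hs0 hs1
  obtain ⟨g, h0, V, B, y2, hy2, hV01, hV0, hVK⟩ := slopesG d U K hK hU
  have hVfin : volume V ≠ ⊤ := by
    have h1 : V ⊆ Set.Icc (0 : Fin d → ℝ) 1 := fun v hv =>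
      ⟨fun i => (hV01 v hv i).1, fun i => (hV01 v hv i).2⟩
    refine ne_top_of_le_ne_top ?_ (measure_mono h1)
    rw [Real.volume_Icc_pi]
    simp
  obtain ⟨y1, hy1⟩ : ∃ y : ℝ, y = (volume V).toReal := ⟨_, rfl⟩
  have hy1pos : 0 < y1 := by rw [hy1]; exact ENNReal.toReal_pos hV0 hVfin
  have hy1V : ENNReal.ofReal y1 ≤ volume V := by rw [hy1]; exact ENNReal.ofReal_toReal_le
  obtain ⟨Λ, hΛ⟩ : ∃ Λ : ℝ, Λ = ‖LinearMap.toContinuousLinearMap (shr d g)‖ := ⟨_, rfl⟩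
  have hΛ0 : 0 ≤ Λ := by rw [hΛ]; exact norm_nonneg _
  have hLip : ∀ x y, dist (shr d g x) (shr d g y) ≤ Λ * dist x y := by
    intro x y
    rw [dist_eq_norm, dist_eq_norm, ← map_sub, hΛ]
    exact (LinearMap.toContinuousLinearMap (shr d g)).le_opNorm (x - y)
  -- the parameter
  obtain ⟨m0, hm0⟩ : ∃ m0 : ℕ, max (max (1 / y1) (1 / y2)) (max Λ (σ / (σ - s))) < m0 :=
    exists_nat_gt _
  have hσs : 0 < σ - s := by rw [hσ]; linarith
  filter_upwards [hMf2, hMf1.eventually (eventually_ge_atTop (m0 : ℝ)),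
    Ioo_mem_nhdsGT (show (0 : ℝ) < 1 by norm_num)] with δ hδ1 hδ2 hδ3 ι t hcov ht
  obtain ⟨m, hm⟩ : ∃ m : ℕ, m = Mf δ := ⟨_, rfl⟩
  rw [← hm] at hδ1 hδ2
  simp only [← hm] at ht
  have hmpos : (0 : ℝ) < m := lt_of_lt_of_le (lt_trans (lt_of_lt_of_le (by positivity)
    ((le_max_left (1 / y1) (1 / y2)).trans (le_max_left _ _))) hm0) hδ2
  have hm1 : 1 / y1 < m := lt_of_le_of_lt ((le_max_left _ _).trans (le_max_left _ _))
    (hm0.trans_le hδ2)
  have hm2 : 1 / y2 < m := lt_of_le_of_lt ((le_max_right _ _).trans (le_max_left _ _))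
    (hm0.trans_le hδ2)
  have hm3 : Λ < m := lt_of_le_of_lt ((le_max_left _ _).trans (le_max_right _ _))
    (hm0.trans_le hδ2)
  have hm4 : σ / (σ - s) < m := lt_of_le_of_lt ((le_max_right _ _).trans (le_max_right _ _))
    (hm0.trans_le hδ2)
  have hy1m : 1 / ((m : ℝ) + 1) ≤ y1 := by
    rw [div_lt_iff₀ hy1pos] at hm1
    rw [div_le_iff₀ (by positivity)]
    nlinarith
  have hy2m : 1 / ((m : ℝ) + 1) ≤ y2 := by
    rw [div_lt_iff₀ hy2] at hm2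
    rw [div_le_iff₀ (by positivity)]
    nlinarith
  have hsm : s ≤ σ * (1 - 1 / ((m : ℝ) + 2)) := by
    rw [div_lt_iff₀ hσs] at hm4
    have h1 : σ * (1 / ((m : ℝ) + 2)) ≤ σ - s := by
      rw [mul_one_div, div_le_iff₀ (by positivity)]
      nlinarith
    linarith
  have hediam : ∀ i, Metric.ediam (t i) = ENNReal.ofReal (Metric.ediam (t i)).toReal := by
    intro i
    rw [ENNReal.ofReal_toReal]
    exact ne_top_of_le_ne_top ENNReal.ofReal_ne_top (ht i).2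
  have hr : ∀ i, δ ^ (m : ℝ) ≤ (Metric.ediam (t i)).toReal ∧ (Metric.ediam (t i)).toReal ≤ δ := by
    intro i
    have h1 := ht i
    rw [hediam i] at h1
    refine ⟨(ENNReal.ofReal_le_ofReal_iff ENNReal.toReal_nonneg).1 h1.1,
      (ENNReal.ofReal_le_ofReal_iff hδ3.1.le).1 h1.2⟩
  have hfinal := hds m δ hδ3.1 hδ1 h0 V B hV01 (le_trans (ENNReal.ofReal_le_ofReal hy1m) hy1V) ι
    (fun i => shr d g '' t i) (fun i => (Metric.ediam (t i)).toReal) (by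
      intro i
      refine ⟨le_trans ?_ (hr i).1, (hr i).2⟩
      exact Real.rpow_le_rpow_of_exponent_ge hδ3.1 hδ3.2.le (hN2 m)) (by
      rintro i _ ⟨x, hx, rfl⟩ _ ⟨y, hy, rfl⟩
      have h1 : dist x y ≤ (Metric.ediam (t i)).toReal := by
        have h2 := Metric.edist_le_ediam_of_mem hx hy
        rw [hediam i, edist_dist] at h2
        exact (ENNReal.ofReal_le_ofReal_iff ENNReal.toReal_nonneg).1 h2
      refine (hLip x y).trans ?_
      apply mul_le_mul (by linarith) h1 dist_nonneg (by positivity)) (by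
      intro v hv
      refine (ENNReal.ofReal_le_ofReal hy2m).trans ((hVK v hv).trans (measure_mono ?_))
      rintro τ ⟨hτ, x, hx, hxe⟩
      obtain ⟨i, hi⟩ := Set.mem_iUnion.1 (hcov hx)
      exact ⟨hτ, i, x, hi, hxe⟩)
  refine hfinal.trans (ENNReal.tsum_le_tsum fun i => ?_)
  rw [← hediam i]
  apply ENNReal.rpow_le_rpow_of_exponent_ge _ hsm
  refine (ht i).2.trans ?_
  rw [← ENNReal.ofReal_one]
  exact ENNReal.ofReal_le_ofReal hδ3.2.le

/-- The theorem with the exponent of chains of planes. -/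
theorem kakeya_intermediate (d : ℕ) : ∃ M : ℝ → ℝ, Tendsto M (𝓝[>] 0) atTop ∧
      ∀ U K : Set (EuclideanSpace ℝ (Fin (d + 1))),
      (∀ e ∈ U, ‖e‖ = 1 ∧ ∃ a : EuclideanSpace ℝ (Fin (d + 1)),
        0 < volume {t : ℝ | a + t • e ∈ K}) →
      (volume : Measure (EuclideanSpace ℝ (Fin (d + 1)))).toSphere
        {e : Metric.sphere (0 : EuclideanSpace ℝ (Fin (d + 1))) 1 |
          (e : EuclideanSpace ℝ (Fin (d + 1))) ∈ U} ≠ 0 →
      ∀ s : ℝ, 0 ≤ s → s < 1 + d / (1669587 / 1000000) → ∀ᶠ δ in 𝓝[>] (0 : ℝ),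
        ∀ (ι : Type) (t : ι → Set (EuclideanSpace ℝ (Fin (d + 1)))), K ⊆ ⋃ i, t i →
        (∀ i, ENNReal.ofReal (δ ^ M δ) ≤ Metric.ediam (t i) ∧
          Metric.ediam (t i) ≤ ENNReal.ofReal δ) → 1 ≤ ∑' i, Metric.ediam (t i) ^ s := by
  obtain ⟨T, w, hO⟩ := Pool.Agent.TH404.AK.oracle3
  exact main d (by norm_num) (fun l hl => counting (by norm_num) hO d l hl)

end Pool.Agent.U597.ID
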