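import Pool.Agent.U597.ID.CL

/-!
# From the counting inequality to sets which meet many thin tubes in a fixed proportion
-/

set_option autoImplicit false

open Finset MeasureTheory
open scoped Classical ENNReal NNReal

namespace Pool.Agent.U597.ID
open Pool.Agent.W46.HD

/-- The counting inequality with the exponent `c`. -/
def Cnt (d : ℕ) (c : ℝ) : Prop := ∀ l : ℝ, 0 < l → ∃ C : ℝ, 0 ≤ C ∧ ∀ (n : ℕ) (Ω : Type)
    [Fintype Ω] [Nonempty Ω] (A D : Ω → Fin d → ℝ), IsFam n D → ∀ E : Ω → Finset (Fin n),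
    (∀ ω, l * n ≤ (#(E ω) : ℝ)) →
    Real.log (Fintype.card Ω) ≤ c * Real.log ((∑ j : Fin n,
      (#((Finset.univ.filter fun ω => j ∈ E ω).image (cell A D j)) : ℝ)) / n) + C

/-- the tube of the line `ω` -/
def Tb {d : ℕ} (P v : Fin d → ℝ) (r : ℝ) : Set (ℝ × (Fin d → ℝ)) :=
  {z | ∀ k, |z.2 k - (P k + z.1 * v k)| ≤ r}

theorem measurableSet_Tb {d : ℕ} (P v : Fin d → ℝ) (r : ℝ) : MeasurableSet (Tb P v r) := by
  have : Tb P v r = ⋂ k, {z : ℝ × (Fin d → ℝ) | |z.2 k - (P k + z.1 * v k)| ≤ r} := by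
    ext z
    simp [Tb]
  rw [this]
  refine MeasurableSet.iInter fun k => ?_
  apply IsClosed.measurableSet
  apply isClosed_le _ continuous_const
  fun_prop

/-- the slab between two heights -/
def Sl (d : ℕ) (s t : ℝ) : Set (ℝ × (Fin d → ℝ)) := Set.Ico s t ×ˢ Set.univ

theorem measurableSet_Sl (d : ℕ) (s t : ℝ) : MeasurableSet (Sl d s t) :=
  measurableSet_Ico.prod MeasurableSet.univ

/-- volume of a piece of a tube -/
theorem vol_piece {d : ℕ} (P v : Fin d → ℝ) (hv : ∀ k, |v k| ≤ 1) (r s w : ℝ) (hr : 0 ≤ r)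
    (hw : 0 ≤ w) : volume (Sl d s (s + w) ∩ Tb P v r) ≤ ENNReal.ofReal (w * (2 * (r + w)) ^ d) := by
  have hsub : Sl d s (s + w) ∩ Tb P v r ⊆ Set.Ico s (s + w) ×ˢ
      Set.Icc (fun k => P k + s * v k - (r + w)) (fun k => P k + s * v k + (r + w)) := by
    rintro ⟨t, y⟩ ⟨⟨ht, -⟩, hy⟩
    refine ⟨ht, ?_⟩
    have h1 : ∀ k, |y k - (P k + s * v k)| ≤ r + w := by
      intro k
      have h2 : y k - (P k + s * v k) = (y k - (P k + t * v k)) + (t - s) * v k := by ring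
      rw [h2]
      refine (abs_add_le _ _).trans (add_le_add (hy k) ?_)
      rw [abs_mul]
      have h3 : |t - s| ≤ w := by
        rw [abs_le]
        have h4 := ht.1
        have h5 := ht.2
        simp only at h4 h5
        constructor <;> linarith
      calc |t - s| * |v k| ≤ w * 1 := mul_le_mul h3 (hv k) (abs_nonneg _) hw
        _ = w := mul_one w
    constructor
    · intro k
      have := (abs_le.1 (h1 k)).1
      simp only
      linarith
    · intro k
      have := (abs_le.1 (h1 k)).2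
      simp only
      linarith
  refine (measure_mono hsub).trans ?_
  rw [Measure.volume_eq_prod, Measure.prod_prod, Real.volume_Ico, Real.volume_Icc_pi]
  have h1 : ∀ k : Fin d, ENNReal.ofReal (P k + s * v k + (r + w) - (P k + s * v k - (r + w))) =
      ENNReal.ofReal (2 * (r + w)) := by
    intro k
    congr 1
    ring
  rw [Finset.prod_congr rfl fun k _ => h1 k, Finset.prod_const, Finset.card_univ,
    Fintype.card_fin, ← ENNReal.ofReal_pow (by positivity), ← ENNReal.ofReal_mul (by linarith)]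
  apply le_of_eq
  congr 1
  ring

/-- number of integers in an interval -/
theorem card_int_Icc (a b : ℝ) (K : ℕ) (h : b - a + 1 ≤ K) : #(Finset.Icc ⌈a⌉ ⌊b⌋) ≤ K := by
  rw [Int.card_Icc]
  have h1 := Int.le_ceil a
  have h2 := Int.floor_le b
  have h3 : ((⌊b⌋ + 1 - ⌈a⌉ : ℤ) : ℝ) ≤ (K : ℤ) := by
    push_cast
    linarith
  have h4 : ⌊b⌋ + 1 - ⌈a⌉ ≤ (K : ℤ) := by exact_mod_cast h3
  omega

/-- One window of heights. -/
theorem window (d : ℕ) {c : ℝ} (hc : 1 ≤ c) (h : Cnt d c) (lam R : ℝ) (hlam : 0 < lam)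
    (hR : 0 < R) : ∃ C : ℝ, 0 < C ∧ ∀ (N : ℕ) (Ω : Type) [Fintype Ω] (P v : Ω → Fin d → ℝ)
    (t0 r : ℝ), 1 ≤ N → 0 ≤ r → N * r ≤ R → (∀ ω k, |v ω k| ≤ 1) →
    (∀ ω ω', (∀ k, ⌊(N : ℝ) * ((v ω k + 1) / 2)⌋ = ⌊(N : ℝ) * ((v ω' k + 1) / 2)⌋) → ω = ω') →
    ∀ G : Set (ℝ × (Fin d → ℝ)), MeasurableSet G →
    (∀ ω, ENNReal.ofReal (lam * (1 / (N : ℝ)) ^ d) ≤
      volume (G ∩ Sl d t0 (t0 + 1) ∩ Tb (P ω) (v ω) r)) →
    (Fintype.card Ω : ℝ≥0∞) ≤ ENNReal.ofReal C *
      (ENNReal.ofReal ((N : ℝ) ^ d) * volume (G ∩ Sl d t0 (t0 + 1))) ^ c := by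
  have hc0 : 0 < c := by linarith
  obtain ⟨V0, hV0⟩ : ∃ V0 : ℝ, V0 = (2 * (R + 1)) ^ d := ⟨_, rfl⟩
  have hV0pos : 0 < V0 := by rw [hV0]; positivity
  obtain ⟨l, hl⟩ : ∃ l : ℝ, l = lam / (2 * V0) := ⟨_, rfl⟩
  have hl0 : 0 < l := by rw [hl]; positivity
  obtain ⟨C, hC0, hC⟩ := h l hl0
  obtain ⟨K, hK⟩ := exists_nat_ge (R + 4)
  obtain ⟨M0, hM0⟩ : ∃ M0 : ℕ, M0 = K ^ d := ⟨_, rfl⟩
  have hKpos : (0 : ℝ) < K := by linarith
  have hM0pos : (0 : ℝ) < M0 := by rw [hM0]; push_cast; positivity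
  refine ⟨Real.exp C * (2 * M0 / lam) ^ c, by positivity, ?_⟩
  intro N Ω _ P v t0 r hN hr hNr hv hsep G hG hGω
  have hN0 : (0 : ℝ) < N := by exact_mod_cast hN
  rcases isEmpty_or_nonempty Ω with hΩ | hΩ
  · rw [Fintype.card_eq_zero]
    simp
  have hrR : r ≤ R / N := by
    rw [le_div_iff₀ hN0]
    linarith
  have hpiece : (1 / (N : ℝ)) * (2 * (r + 1 / N)) ^ d ≤ (1 / (N : ℝ)) ^ d * (1 / N) * V0 := by
    have h1 : 2 * (r + 1 / N) ≤ (1 / (N : ℝ)) * (2 * (R + 1)) := by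
      have h2 : (1 / (N : ℝ)) * (2 * (R + 1)) = 2 * (R / N + 1 / N) := by ring
      rw [h2]
      linarith
    calc (1 / (N : ℝ)) * (2 * (r + 1 / N)) ^ d ≤
        (1 / (N : ℝ)) * ((1 / (N : ℝ)) * (2 * (R + 1))) ^ d := by gcongr
      _ = (1 / (N : ℝ)) ^ d * (1 / N) * V0 := by rw [mul_pow, hV0]; ring
  -- the slabs
  let sl : Fin N → Set (ℝ × (Fin d → ℝ)) := fun j => Sl d (t0 + (j : ℕ) / N) (t0 + (j : ℕ) / N + 1 / N)
  have hslm : ∀ j, MeasurableSet (sl j) := fun j => measurableSet_Sl _ _ _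
  have hslW : Sl d t0 (t0 + 1) ⊆ ⋃ j, sl j := by
    rintro ⟨t, y⟩ ⟨⟨ht1, ht2⟩, -⟩
    simp only at ht1 ht2
    have h1 : 0 ≤ (N : ℝ) * (t - t0) := mul_nonneg hN0.le (by linarith)
    have h2 : (N : ℝ) * (t - t0) < N := by nlinarith
    have h3 : ⌊(N : ℝ) * (t - t0)⌋₊ < N := (Nat.floor_lt h1).2 h2
    refine Set.mem_iUnion.2 ⟨⟨_, h3⟩, ⟨?_, ?_⟩, Set.mem_univ _⟩
    · have h4 := Nat.floor_le h1
      have h5 : ((⌊(N : ℝ) * (t - t0)⌋₊ : ℕ) : ℝ) / N ≤ t - t0 := by
        rw [div_le_iff₀ hN0]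
        linarith
      simp only
      linarith
    · have h4 := Nat.lt_floor_add_one ((N : ℝ) * (t - t0))
      have h5 : t - t0 < (((⌊(N : ℝ) * (t - t0)⌋₊ : ℕ) : ℝ) + 1) / N := by
        rw [lt_div_iff₀ hN0]
        linarith
      rw [add_div] at h5
      simp only
      linarith
  have hslW' : ∀ j, sl j ⊆ Sl d t0 (t0 + 1) := by
    rintro j ⟨t, y⟩ ⟨⟨ht1, ht2⟩, -⟩
    simp only at ht1 ht2
    have hj1 : (0 : ℝ) ≤ ((j : ℕ) : ℝ) / N := by positivity
    have hj2 : ((j : ℕ) : ℝ) / N + 1 / N ≤ 1 := by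
      rw [← add_div, div_le_one hN0]
      exact_mod_cast j.2
    refine ⟨⟨?_, ?_⟩, Set.mem_univ _⟩
    · simp only; linarith
    · simp only; linarith
  have hsldis : Pairwise (Function.onFun Disjoint sl) := by
    intro j j' hjj
    rw [Function.onFun, Set.disjoint_left]
    rintro ⟨t, y⟩ ⟨⟨h1, h2⟩, -⟩ ⟨⟨h3, h4⟩, -⟩
    simp only at h1 h2 h3 h4
    apply hjj
    apply Fin.ext
    have h5 : ((j : ℕ) : ℝ) / N < ((j' : ℕ) : ℝ) / N + 1 / N := by linarith
    have h6 : ((j' : ℕ) : ℝ) / N < ((j : ℕ) : ℝ) / N + 1 / N := by linarith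
    rw [← add_div, div_lt_div_iff_of_pos_right hN0] at h5 h6
    have h7 : (j : ℕ) < j' + 1 := by exact_mod_cast h5
    have h8 : (j' : ℕ) < j + 1 := by exact_mod_cast h6
    omega
  -- the heights of a line
  let E : Ω → Finset (Fin N) := fun ω => Finset.univ.filter fun j =>
    ENNReal.ofReal (lam / 2 * ((1 / (N : ℝ)) ^ d * (1 / N))) ≤ volume (G ∩ sl j ∩ Tb (P ω) (v ω) r)
  have hE : ∀ ω, l * N ≤ (#(E ω) : ℝ) := by
    intro ω
    have h1 : ENNReal.ofReal (lam * (1 / (N : ℝ)) ^ d) ≤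
        ∑ j : Fin N, volume (G ∩ sl j ∩ Tb (P ω) (v ω) r) := by
      refine (hGω ω).trans (le_trans (measure_mono ?_) (measure_iUnion_fintype_le _ _))
      rintro z ⟨⟨hz1, hz2⟩, hz3⟩
      obtain ⟨j, hj⟩ := Set.mem_iUnion.1 (hslW hz2)
      exact Set.mem_iUnion.2 ⟨j, ⟨hz1, hj⟩, hz3⟩
    have h2 : ∀ j : Fin N, volume (G ∩ sl j ∩ Tb (P ω) (v ω) r) ≤
        ENNReal.ofReal ((if j ∈ E ω then (1 / (N : ℝ)) ^ d * (1 / N) * V0 else 0) +
          lam / 2 * ((1 / (N : ℝ)) ^ d * (1 / N))) := by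
      intro j
      by_cases hj : j ∈ E ω
      · rw [if_pos hj]
        have h3 : volume (G ∩ sl j ∩ Tb (P ω) (v ω) r) ≤ volume (sl j ∩ Tb (P ω) (v ω) r) :=
          measure_mono fun z hz => ⟨hz.1.2, hz.2⟩
        refine h3.trans ((vol_piece (P ω) (v ω) (hv ω) r _ (1 / N) hr (by positivity)).trans
          (ENNReal.ofReal_le_ofReal ?_))
        refine hpiece.trans ?_
        have : 0 ≤ lam / 2 * ((1 / (N : ℝ)) ^ d * (1 / N)) := by positivity
        linarith
      · rw [if_neg hj, zero_add]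
        have h3 : ¬ (ENNReal.ofReal (lam / 2 * ((1 / (N : ℝ)) ^ d * (1 / N))) ≤
            volume (G ∩ sl j ∩ Tb (P ω) (v ω) r)) := fun h4 =>
          hj (Finset.mem_filter.2 ⟨Finset.mem_univ _, h4⟩)
        exact (not_le.1 h3).le
    have h3 := h1.trans (Finset.sum_le_sum fun j _ => h2 j)
    rw [← ENNReal.ofReal_sum_of_nonneg (fun j _ => by positivity)] at h3
    have h4 := (ENNReal.ofReal_le_ofReal_iff (Finset.sum_nonneg fun j _ => by positivity)).1 h3
    rw [Finset.sum_add_distrib, Finset.sum_ite_mem, Finset.univ_inter, Finset.sum_const,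
      Finset.sum_const, Finset.card_univ, Fintype.card_fin, nsmul_eq_mul, nsmul_eq_mul] at h4
    have h5 : (N : ℝ) * (lam / 2 * ((1 / (N : ℝ)) ^ d * (1 / N))) = lam / 2 * (1 / (N : ℝ)) ^ d := by
      field_simp
    rw [h5] at h4
    have h6 : (0 : ℝ) < (1 / (N : ℝ)) ^ d := by positivity
    have h7 : lam / 2 ≤ #(E ω) * V0 / N := by
      have h8 : (1 / (N : ℝ)) ^ d * (lam / 2) ≤ (1 / (N : ℝ)) ^ d * (#(E ω) * V0 / N) := by
        have h9 : (#(E ω) : ℝ) * ((1 / (N : ℝ)) ^ d * (1 / N) * V0) =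
            (1 / (N : ℝ)) ^ d * (#(E ω) * V0 / N) := by ring
        rw [← h9]
        linarith
      exact le_of_mul_le_mul_left h8 h6
    rw [le_div_iff₀ hN0] at h7
    rw [hl, div_mul_eq_mul_div, div_le_iff₀ (by positivity)]
    linarith
  -- the family
  obtain ⟨D, hD⟩ : ∃ D : Ω → Fin d → ℝ, D = fun ω k => (v ω k + 1) / 2 := ⟨_, rfl⟩
  obtain ⟨A, hA⟩ : ∃ A : Ω → Fin d → ℝ, A = fun ω k => (N : ℝ) * (P ω k + t0 * v ω k) / 2 := ⟨_, rfl⟩
  have hfam : IsFam N D := by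
    refine ⟨hN, ?_, ?_, ?_⟩
    · intro ω k
      have := (abs_le.1 (hv ω k)).1
      rw [hD]
      simp only
      linarith
    · intro ω k
      have := (abs_le.1 (hv ω k)).2
      rw [hD]
      simp only
      linarith
    · intro ω ω' hh
      apply hsep
      rw [hD] at hh
      exact hh
  have hCL := hC N Ω A D hfam E hE
  obtain ⟨a, ha⟩ : ∃ a : Fin N → ℕ, a = fun j =>
    #((Finset.univ.filter fun ω => j ∈ E ω).image (cell A D j)) := ⟨_, rfl⟩
  have hasum : (∑ j : Fin N, (#((Finset.univ.filter fun ω => j ∈ E ω).image (cell A D j)) : ℝ)) =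
      ∑ j, (a j : ℝ) := by rw [ha]
  rw [hasum] at hCL
  -- the volume of `G` in a slab
  have hslab : ∀ j : Fin N, ENNReal.ofReal (a j * (lam / 2 * ((1 / (N : ℝ)) ^ d * (1 / N)))) ≤
      (M0 : ℝ≥0∞) * volume (G ∩ sl j) := by
    intro j
    obtain ⟨I, hI⟩ : ∃ I : Finset (Fin d → ℤ), I = (Finset.univ.filter fun ω => j ∈ E ω).image
      (cell A D j) := ⟨_, rfl⟩
    have haI : a j = #I := by rw [ha, hI]
    let Bx : (Fin d → ℤ) → Set (ℝ × (Fin d → ℝ)) := fun u =>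
      {z | ∀ k, |(N : ℝ) * z.2 k - (2 * u k - (j : ℕ))| ≤ R + 3}
    have hBxm : ∀ u, MeasurableSet (Bx u) := by
      intro u
      have : Bx u = ⋂ k, {z : ℝ × (Fin d → ℝ) | |(N : ℝ) * z.2 k - (2 * u k - (j : ℕ))| ≤ R + 3} := by
        ext z
        simp [Bx]
      rw [this]
      refine MeasurableSet.iInter fun k => ?_
      apply IsClosed.measurableSet
      apply isClosed_le _ continuous_const
      fun_prop
    have h1 : ∀ u ∈ I, ENNReal.ofReal (lam / 2 * ((1 / (N : ℝ)) ^ d * (1 / N))) ≤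
        volume (G ∩ sl j ∩ Bx u) := by
      intro u hu
      rw [hI] at hu
      obtain ⟨ω, hω, rfl⟩ := Finset.mem_image.1 hu
      have h2 := (Finset.mem_filter.1 (Finset.mem_filter.1 hω).2).2
      refine h2.trans (measure_mono ?_)
      rintro ⟨t, y⟩ ⟨⟨hz1, hz2⟩, hz3⟩
      refine ⟨⟨hz1, hz2⟩, fun k => ?_⟩
      have h3 := hz3 k
      obtain ⟨⟨h4, h5⟩, -⟩ := hz2
      simp only at h3 h4 h5
      have h6 := Int.floor_le (A ω k + ((j : ℕ) : ℝ) * D ω k)
      have h7 := Int.lt_floor_add_one (A ω k + ((j : ℕ) : ℝ) * D ω k)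
      have h8 : cell A D j ω k = ⌊A ω k + ((j : ℕ) : ℝ) * D ω k⌋ := rfl
      rw [← h8] at h6 h7
      have h9 : A ω k + ((j : ℕ) : ℝ) * D ω k =
          (N : ℝ) * (P ω k + t0 * v ω k) / 2 + ((j : ℕ) : ℝ) * ((v ω k + 1) / 2) := by
        rw [hA, hD]
      rw [h9] at h6 h7
      have h10 : (N : ℝ) * y k - (2 * (cell A D j ω k : ℝ) - ((j : ℕ) : ℝ)) =
          N * (y k - (P ω k + t * v ω k)) + (N * (t - (t0 + ((j : ℕ) : ℝ) / N))) * v ω k +
          2 * ((N : ℝ) * (P ω k + t0 * v ω k) / 2 + ((j : ℕ) : ℝ) * ((v ω k + 1) / 2) -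
            (cell A D j ω k : ℝ)) := by
        field_simp
        ring
      have h11 : |(N : ℝ) * (y k - (P ω k + t * v ω k))| ≤ R := by
        rw [abs_mul, abs_of_pos hN0]
        calc (N : ℝ) * |y k - (P ω k + t * v ω k)| ≤ N * r := by gcongr
          _ ≤ R := hNr
      have h12 : |(N * (t - (t0 + ((j : ℕ) : ℝ) / N))) * v ω k| ≤ 1 := by
        rw [abs_mul]
        have h13 : |(N : ℝ) * (t - (t0 + ((j : ℕ) : ℝ) / N))| ≤ 1 := by
          rw [abs_mul, abs_of_pos hN0, abs_of_nonneg (by linarith)]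
          calc (N : ℝ) * (t - (t0 + ((j : ℕ) : ℝ) / N)) ≤ N * (1 / N) := by
                gcongr
                linarith
            _ = 1 := by field_simp
        calc _ ≤ 1 * 1 := mul_le_mul h13 (hv ω k) (abs_nonneg _) (by norm_num)
          _ = 1 := one_mul 1
      change |(N : ℝ) * y k - (2 * (cell A D j ω k : ℝ) - ((j : ℕ) : ℝ))| ≤ R + 3
      rw [h10]
      have h13 := abs_le.1 h11
      have h14 := abs_le.1 h12
      rw [abs_le]
      constructor
      · linarith [h13.1, h14.1]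
      · linarith [h13.2, h14.2]
    have h2 : ENNReal.ofReal (a j * (lam / 2 * ((1 / (N : ℝ)) ^ d * (1 / N)))) ≤
        ∑ u ∈ I, volume (G ∩ sl j ∩ Bx u) := by
      rw [ENNReal.ofReal_mul (Nat.cast_nonneg _), ENNReal.ofReal_natCast, haI, ← nsmul_eq_mul,
        ← Finset.sum_const]
      exact Finset.sum_le_sum h1
    refine h2.trans ?_
    have h3 : ∀ u, volume (G ∩ sl j ∩ Bx u) = ∫⁻ z in G ∩ sl j, (Bx u).indicator (fun _ => 1) z := by
      intro u
      rw [lintegral_indicator (hBxm u), setLIntegral_one, Measure.restrict_apply (hBxm u),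
        Set.inter_comm]
    rw [Finset.sum_congr rfl fun u _ => h3 u, ← lintegral_finsetSum _ fun u _ =>
      measurable_const.indicator (hBxm u)]
    calc ∫⁻ z in G ∩ sl j, ∑ u ∈ I, (Bx u).indicator (fun _ => (1 : ℝ≥0∞)) z
        ≤ ∫⁻ _z in G ∩ sl j, (M0 : ℝ≥0∞) := by
          refine lintegral_mono fun z => ?_
          have h4 : ∑ u ∈ I, (Bx u).indicator (fun _ => (1 : ℝ≥0∞)) z =
              (#(I.filter fun u => z ∈ Bx u) : ℝ≥0∞) := by
            rw [Finset.card_filter, Nat.cast_sum]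
            refine Finset.sum_congr rfl fun u _ => ?_
            by_cases hz : z ∈ Bx u
            · simp [hz]
            · simp [hz]
          rw [h4]
          have h5 : I.filter (fun u => z ∈ Bx u) ⊆ Fintype.piFinset (fun k =>
              Finset.Icc ⌈((N : ℝ) * z.2 k + (j : ℕ) - (R + 3)) / 2⌉
                ⌊((N : ℝ) * z.2 k + (j : ℕ) + (R + 3)) / 2⌋) := by
            intro u hu
            have h6 := (Finset.mem_filter.1 hu).2
            rw [Fintype.mem_piFinset]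
            intro k
            have h7 := abs_le.1 (h6 k)
            rw [Finset.mem_Icc, Int.ceil_le, Int.le_floor]
            constructor
            · rw [div_le_iff₀ (by norm_num)]
              linarith [h7.2]
            · rw [le_div_iff₀ (by norm_num)]
              linarith [h7.1]
          have h6 : #(I.filter fun u => z ∈ Bx u) ≤ M0 := by
            refine (Finset.card_le_card h5).trans ?_
            rw [Fintype.card_piFinset, hM0]
            calc _ ≤ ∏ _k : Fin d, K := Finset.prod_le_prod' fun k _ =>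
                  card_int_Icc _ _ K (by linarith)
              _ = K ^ d := by rw [Finset.prod_const, Finset.card_univ, Fintype.card_fin]
          exact Nat.cast_le.2 h6
      _ = (M0 : ℝ≥0∞) * volume (G ∩ sl j) := setLIntegral_const _ _
  have htot : ENNReal.ofReal ((∑ j, (a j : ℝ)) * (lam / 2 * ((1 / (N : ℝ)) ^ d * (1 / N)))) ≤
      (M0 : ℝ≥0∞) * volume (G ∩ Sl d t0 (t0 + 1)) := by
    rw [Finset.sum_mul, ENNReal.ofReal_sum_of_nonneg fun j _ => by positivity]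
    refine (Finset.sum_le_sum fun j _ => hslab j).trans ?_
    rw [← Finset.mul_sum]
    gcongr
    have h1 : ∑ j : Fin N, volume (G ∩ sl j) = volume (⋃ j, G ∩ sl j) := by
      rw [measure_iUnion (fun j j' hjj => by
        have := hsldis hjj
        rw [Function.onFun] at this ⊢
        exact this.mono Set.inter_subset_right Set.inter_subset_right)
        (fun j => hG.inter (hslm j)), tsum_fintype]
    rw [h1]
    apply measure_mono
    apply Set.iUnion_subset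
    intro j z hz
    exact ⟨hz.1, hslW' j hz.2⟩
  by_cases htop : volume (G ∩ Sl d t0 (t0 + 1)) = ⊤
  · rw [htop, ENNReal.mul_top (by
      rw [ne_eq, ENNReal.ofReal_eq_zero, not_le]; positivity), ENNReal.top_rpow_of_pos hc0,
      ENNReal.mul_top (by rw [ne_eq, ENNReal.ofReal_eq_zero, not_le]; positivity)]
    exact le_top
  obtain ⟨g, hg0, hg⟩ : ∃ g : ℝ, 0 ≤ g ∧ volume (G ∩ Sl d t0 (t0 + 1)) = ENNReal.ofReal g :=
    ⟨_, ENNReal.toReal_nonneg, (ENNReal.ofReal_toReal htop).symm⟩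
  rw [hg] at htot ⊢
  rw [← ENNReal.ofReal_natCast, ← ENNReal.ofReal_mul (Nat.cast_nonneg _)] at htot
  have htot2 := (ENNReal.ofReal_le_ofReal_iff (by positivity)).1 htot
  have hS1 : (1 : ℝ) ≤ ∑ j, (a j : ℝ) := by
    obtain ⟨ω0⟩ := hΩ
    have h1 : 0 < (#(E ω0) : ℝ) := lt_of_lt_of_le (by positivity) (hE ω0)
    obtain ⟨j0, hj0⟩ := Finset.card_pos.1 (by exact_mod_cast h1)
    have h2 : 1 ≤ a j0 := by
      rw [ha]
      exact Finset.card_pos.2 ⟨_, Finset.mem_image_of_mem _ (Finset.mem_filter.2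
        ⟨Finset.mem_univ ω0, hj0⟩)⟩
    have h3 := Finset.single_le_sum (f := fun j => (a j : ℝ)) (fun j _ => Nat.cast_nonneg _)
      (Finset.mem_univ j0)
    have h4 : (1 : ℝ) ≤ a j0 := by exact_mod_cast h2
    linarith
  have hSN : (∑ j, (a j : ℝ)) / N ≤ (2 * M0 / lam) * ((N : ℝ) ^ d * g) := by
    have h1 : (∑ j, (a j : ℝ)) / N * (lam / 2 * (1 / (N : ℝ)) ^ d) ≤ M0 * g := by
      calc _ = (∑ j, (a j : ℝ)) * (lam / 2 * ((1 / (N : ℝ)) ^ d * (1 / N))) := by ring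
        _ ≤ _ := htot2
    have h2 : 0 < lam / 2 * (1 / (N : ℝ)) ^ d := by positivity
    rw [← le_div_iff₀ h2] at h1
    refine h1.trans (le_of_eq ?_)
    rw [one_div, inv_pow]
    field_simp
  have hcardpos : (0 : ℝ) < Fintype.card Ω := by exact_mod_cast Fintype.card_pos
  have hSNpos : 0 < (∑ j, (a j : ℝ)) / N := by
    apply div_pos _ hN0
    linarith
  have hfin : (Fintype.card Ω : ℝ) ≤ Real.exp C * (2 * M0 / lam) ^ c * ((N : ℝ) ^ d * g) ^ c := by
    have h1 : (Fintype.card Ω : ℝ) ≤ Real.exp C * ((∑ j, (a j : ℝ)) / N) ^ c := by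
      rw [← Real.exp_log hcardpos, Real.rpow_def_of_pos hSNpos, ← Real.exp_add, Real.exp_le_exp]
      linarith
    refine h1.trans ?_
    rw [mul_assoc, ← Real.mul_rpow (by positivity) (by positivity)]
    gcongr
  rw [← ENNReal.ofReal_mul (by positivity), ENNReal.ofReal_rpow_of_nonneg (by positivity) hc0.le,
    ← ENNReal.ofReal_mul (by positivity), ← ENNReal.ofReal_natCast]
  exact ENNReal.ofReal_le_ofReal hfin

end Pool.Agent.U597.ID
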