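import Pool.Agent.W605.HM.TubeQ
import Pool.Agent.W101.HM.Weak
import Pool.Agent.W131.HM.CapVol
import Pool.Agent.U597.ID.Win

/-!
# Sets which meet many thin tubes in a fixed proportion: tubes in Euclidean space and the Kakeya
maximal function
-/

set_option autoImplicit false

open Finset MeasureTheory
open scoped Classical ENNReal NNReal

namespace Pool.Agent.U597.ID
open Pool.Agent.W46.KK Pool.Agent.W46.HM

theorem sum_rpow_le {ι : Type} (s : Finset ι) (x : ι → ℝ≥0∞) {c : ℝ} (hc : 1 ≤ c) :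
    ∑ i ∈ s, x i ^ c ≤ (∑ i ∈ s, x i) ^ c := by
  induction s using Finset.induction_on with
  | empty =>
    rw [Finset.sum_empty, Finset.sum_empty, ENNReal.zero_rpow_of_pos (by linarith)]
  | insert i s hi ih =>
    rw [Finset.sum_insert hi, Finset.sum_insert hi]
    exact (add_le_add le_rfl ih).trans (ENNReal.add_rpow_le_rpow_add _ _ hc)

/-- All heights. -/
theorem all_windows (d : ℕ) {c : ℝ} (hc : 1 ≤ c) (h : Cnt d c) (lam R : ℝ) (hlam : 0 < lam)
    (hR : 0 < R) : ∃ C : ℝ, 0 < C ∧ ∀ (N : ℕ) (Ω : Type) [Fintype Ω] (P v : Ω → Fin d → ℝ)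
    (b : Ω → ℝ) (r : ℝ), 1 ≤ N → 0 ≤ r → N * r ≤ R → (∀ ω k, |v ω k| ≤ 1) →
    (∀ ω ω', (∀ k, ⌊(N : ℝ) * ((v ω k + 1) / 2)⌋ = ⌊(N : ℝ) * ((v ω' k + 1) / 2)⌋) → ω = ω') →
    ∀ G : Set (ℝ × (Fin d → ℝ)), MeasurableSet G →
    (∀ ω, ENNReal.ofReal (lam * (1 / (N : ℝ)) ^ d) ≤
      volume (G ∩ {z | |z.1 - b ω| ≤ 3 / 2} ∩ Tb (P ω) (v ω) r)) →
    (Fintype.card Ω : ℝ≥0∞) ≤ ENNReal.ofReal C *
      (ENNReal.ofReal ((N : ℝ) ^ d) * volume G) ^ c := by
  obtain ⟨C, hC0, hC⟩ := window d hc h (lam / 5) R (by positivity) hR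
  refine ⟨C, hC0, ?_⟩
  intro N Ω _ P v b r hN hr hNr hv hsep G hG hGω
  have hN0 : (0 : ℝ) < N := by exact_mod_cast hN
  have hex : ∀ ω, ∃ w : ℤ, ENNReal.ofReal (lam / 5 * (1 / (N : ℝ)) ^ d) ≤
      volume (G ∩ Sl d w (w + 1) ∩ Tb (P ω) (v ω) r) := by
    intro ω
    by_contra hcon
    push Not at hcon
    have h1 : volume (G ∩ {z | |z.1 - b ω| ≤ 3 / 2} ∩ Tb (P ω) (v ω) r) ≤
        ∑ w ∈ Finset.Icc (⌊b ω⌋ - 2) (⌊b ω⌋ + 2),
          volume (G ∩ Sl d w (w + 1) ∩ Tb (P ω) (v ω) r) := by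
      refine le_trans (measure_mono ?_) (measure_biUnion_finset_le _ _)
      rintro ⟨t, y⟩ ⟨⟨hz1, hz2⟩, hz3⟩
      rw [Set.mem_iUnion₂]
      have h2 : -(3 / 2) ≤ t - b ω ∧ t - b ω ≤ 3 / 2 := abs_le.1 hz2
      have f1 := Int.floor_le (b ω)
      have f2 := Int.lt_floor_add_one (b ω)
      have f3 := Int.floor_le t
      have f4 := Int.lt_floor_add_one t
      refine ⟨⌊t⌋, ?_, ⟨hz1, ⟨f3, f4⟩, Set.mem_univ _⟩, hz3⟩
      rw [Finset.mem_Icc]
      constructor
      · have : ((⌊b ω⌋ - 3 : ℤ) : ℝ) < ((⌊t⌋ : ℤ) : ℝ) := by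
          push_cast
          linarith [h2.1]
        have h3 : ⌊b ω⌋ - 3 < ⌊t⌋ := by exact_mod_cast this
        omega
      · have : ((⌊t⌋ : ℤ) : ℝ) < ((⌊b ω⌋ + 3 : ℤ) : ℝ) := by
          push_cast
          linarith [h2.2]
        have h3 : ⌊t⌋ < ⌊b ω⌋ + 3 := by exact_mod_cast this
        omega
    have h2 : ∑ w ∈ Finset.Icc (⌊b ω⌋ - 2) (⌊b ω⌋ + 2),
          volume (G ∩ Sl d w (w + 1) ∩ Tb (P ω) (v ω) r) <
        ∑ _w ∈ Finset.Icc (⌊b ω⌋ - 2) (⌊b ω⌋ + 2),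
          ENNReal.ofReal (lam / 5 * (1 / (N : ℝ)) ^ d) :=
      ENNReal.sum_lt_sum_of_nonempty (by
        rw [Finset.nonempty_Icc]
        omega) fun w _ => hcon w
    have h3 : #(Finset.Icc (⌊b ω⌋ - 2) (⌊b ω⌋ + 2)) = 5 := by
      rw [Int.card_Icc]
      omega
    rw [Finset.sum_const, h3, nsmul_eq_mul, ← ENNReal.ofReal_natCast, ← ENNReal.ofReal_mul
      (Nat.cast_nonneg _)] at h2
    have h4 := ((hGω ω).trans h1).trans_lt h2
    rw [ENNReal.ofReal_lt_ofReal_iff_of_nonneg (by positivity)] at h4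
    push_cast at h4
    linarith
  choose w hw using hex
  have hone : ∀ m : ℤ, (#(Finset.univ.filter fun ω => w ω = m) : ℝ≥0∞) ≤ ENNReal.ofReal C *
      (ENNReal.ofReal ((N : ℝ) ^ d) * volume (G ∩ Sl d m (m + 1))) ^ c := by
    intro m
    have h1 := hC N {ω // w ω = m} (fun ω => P ω.1) (fun ω => v ω.1) m r hN hr hNr
      (fun ω k => hv ω.1 k) (fun ω ω' hh => Subtype.ext (hsep ω.1 ω'.1 hh)) G hG
      (fun ω => by
        have h2 := hw ω.1
        rw [ω.2] at h2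
        exact h2)
    rwa [Fintype.card_subtype] at h1
  obtain ⟨J, hJ⟩ : ∃ J : Finset ℤ, J = Finset.univ.image w := ⟨_, rfl⟩
  have hcard : (Fintype.card Ω : ℝ≥0∞) = ∑ m ∈ J, (#(Finset.univ.filter fun ω => w ω = m) : ℝ≥0∞) := by
    have h1 := Finset.card_eq_sum_card_image w (Finset.univ : Finset Ω)
    rw [Finset.card_univ, ← hJ] at h1
    rw [h1]
    push_cast
    rfl
  rw [hcard]
  calc ∑ m ∈ J, (#(Finset.univ.filter fun ω => w ω = m) : ℝ≥0∞)
      ≤ ∑ m ∈ J, ENNReal.ofReal C *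
        (ENNReal.ofReal ((N : ℝ) ^ d) * volume (G ∩ Sl d m (m + 1))) ^ c :=
        Finset.sum_le_sum fun m _ => hone m
    _ = ENNReal.ofReal C * ∑ m ∈ J,
        (ENNReal.ofReal ((N : ℝ) ^ d) * volume (G ∩ Sl d m (m + 1))) ^ c := by
        rw [Finset.mul_sum]
    _ ≤ ENNReal.ofReal C * (∑ m ∈ J,
        (ENNReal.ofReal ((N : ℝ) ^ d) * volume (G ∩ Sl d m (m + 1)))) ^ c := by
        gcongr
        exact sum_rpow_le J _ hc
    _ ≤ ENNReal.ofReal C * (ENNReal.ofReal ((N : ℝ) ^ d) * volume G) ^ c := by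
        rw [← Finset.mul_sum]
        gcongr
        rw [← measure_biUnion_finset]
        · exact measure_mono (Set.iUnion₂_subset fun m _ => Set.inter_subset_left)
        · intro m _ m' _ hmm
          rw [Function.onFun, Set.disjoint_left]
          rintro ⟨t, y⟩ ⟨_, ⟨h1, h2⟩, _⟩ ⟨_, ⟨h3, h4⟩, _⟩
          simp only at h1 h2 h3 h4
          apply hmm
          have a1 : ((m : ℤ) : ℝ) < ((m' + 1 : ℤ) : ℝ) := by push_cast; linarith
          have a2 : ((m' : ℤ) : ℝ) < ((m + 1 : ℤ) : ℝ) := by push_cast; linarith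
          have a1' : m < m' + 1 := by exact_mod_cast a1
          have a2' : m' < m + 1 := by exact_mod_cast a2
          omega
        · intro m _
          exact hG.inter (measurableSet_Sl _ _ _)

/-- one class of directions -/
theorem one_class (d : ℕ) {c : ℝ} (hc : 1 ≤ c) (h : Cnt d c) (lam : ℝ) (hlam : 0 < lam) :
    ∃ C : ℝ, 0 < C ∧ ∀ δ : ℝ, 0 < δ → δ ≤ 1 → ∀ (ι : Type) [Fintype ι]
    (a e : ι → EuclideanSpace ℝ (Fin (d + 1))) (m : Fin (d + 1)), (∀ i, ‖e i‖ = 1) →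
    (∀ i k, |e i k| ≤ |e i m|) → (∀ i j, 0 < e i m * e j m) →
    (∀ i j, i ≠ j → δ ≤ ‖e i - e j‖) →
    ∀ G : Set (EuclideanSpace ℝ (Fin (d + 1))), MeasurableSet G →
    (∀ i, ENNReal.ofReal (lam * δ ^ d) ≤ volume (G ∩ tube δ (a i) (e i))) →
    (Fintype.card ι : ℝ≥0∞) ≤ ENNReal.ofReal C * (ENNReal.ofReal ((δ⁻¹) ^ d) * volume G) ^ c := by
  have hd1 : (0 : ℝ) < (d : ℝ) + 1 := by positivity
  obtain ⟨C, hC, hmain⟩ := all_windows d hc h lam (8 * (d + 1) + 2) hlam (by positivity)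
  obtain ⟨Q, hQ⟩ : ∃ Q : ℝ, Q = (4 * ((d : ℝ) + 1) + 1) ^ d := ⟨_, rfl⟩
  have hQ0 : 0 < Q := by rw [hQ]; positivity
  refine ⟨C * Q ^ c, by positivity, ?_⟩
  intro δ hδ hδ1 ι _ a e m he hmax hsgn hsep G hG hGi
  have hem : ∀ i, e i m ≠ 0 := by
    intro i h0
    have := hsgn i i
    rw [h0, mul_zero] at this
    exact lt_irrefl _ this
  obtain ⟨N, hN⟩ : ∃ N : ℕ, N = ⌈4 * ((d : ℝ) + 1) / δ⌉₊ := ⟨_, rfl⟩
  have hNlow : 4 * ((d : ℝ) + 1) / δ ≤ N := by rw [hN]; exact Nat.le_ceil _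
  have hNup : (N : ℝ) < 4 * ((d : ℝ) + 1) / δ + 1 := by
    rw [hN]; exact Nat.ceil_lt_add_one (by positivity)
  have hNpos : (0 : ℝ) < N := lt_of_lt_of_le (by positivity) hNlow
  have hN1 : 1 ≤ N := by exact_mod_cast hNpos
  have hNr : (N : ℝ) * (2 * δ) ≤ 8 * (d + 1) + 2 := by
    have h1 : (N : ℝ) * (2 * δ) ≤ (4 * (d + 1) / δ + 1) * (2 * δ) :=
      mul_le_mul_of_nonneg_right hNup.le (by positivity)
    have h2 : (4 * ((d : ℝ) + 1) / δ + 1) * (2 * δ) = 8 * (d + 1) + 2 * δ := by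
      field_simp
      ring
    rw [h2] at h1
    linarith
  have h1N : 1 / (N : ℝ) ≤ δ := by
    rw [div_le_iff₀ hNpos]
    have h1 : δ * (4 * ((d : ℝ) + 1) / δ) ≤ δ * N := mul_le_mul_of_nonneg_left hNlow hδ.le
    have h2 : δ * (4 * ((d : ℝ) + 1) / δ) = 4 * ((d : ℝ) + 1) := by field_simp
    rw [h2] at h1
    linarith
  have hNle : (N : ℝ) ≤ (4 * ((d : ℝ) + 1) + 1) * δ⁻¹ := by
    have h1 : (1 : ℝ) ≤ δ⁻¹ := (one_le_inv₀ hδ).2 hδ1
    have h2 : 4 * ((d : ℝ) + 1) / δ = 4 * ((d : ℝ) + 1) * δ⁻¹ := by ring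
    rw [h2] at hNup
    linarith
  have hGm : MeasurableSet ((eqvj d m).symm ⁻¹' G) := (eqvj d m).symm.measurable hG
  have hmp : MeasurePreserving (eqvj d m).symm volume volume := (eqvj_mp d m).symm (eqvj d m)
  have h1 := hmain N ι (fun i k => a i (m.succAbove k) - a i m * (e i (m.succAbove k) / e i m))
    (fun i k => e i (m.succAbove k) / e i m) (fun i => a i m) (2 * δ) hN1 (by positivity) hNr
    (by
      intro i k
      rw [abs_div, div_le_one (abs_pos.2 (hem i))]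
      exact hmax i _)
    (by
      intro i j hij
      by_contra hne
      obtain ⟨k, hk⟩ := slope_sep hδ m (e i) (e j) (he i) (he j) (hsgn i j) (hsep i j hne)
      refine Pool.Agent.W605.HM.floor_ne ?_ (hij k)
      have h2 : (N : ℝ) * ((e i (m.succAbove k) / e i m + 1) / 2) -
          N * ((e j (m.succAbove k) / e j m + 1) / 2) =
          N / 2 * (e i (m.succAbove k) / e i m - e j (m.succAbove k) / e j m) := by ring
      rw [h2, abs_mul, abs_of_pos (by positivity : (0 : ℝ) < N / 2)]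
      calc (1 : ℝ) = (4 * (d + 1) / δ) / 2 * (δ / (2 * (d + 1))) := by
            field_simp
            norm_num
        _ ≤ N / 2 * |e i (m.succAbove k) / e i m - e j (m.succAbove k) / e j m| := by
            refine mul_le_mul ?_ hk (by positivity) (by positivity)
            exact div_le_div_of_nonneg_right hNlow (by norm_num))
    ((eqvj d m).symm ⁻¹' G) hGm (by
      intro i
      have hTm : MeasurableSet (G ∩ tube δ (a i) (e i)) := hG.inter (tube_isClosed _ _ _).measurableSet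
      have h2 : volume (G ∩ tube δ (a i) (e i)) =
          volume ((eqvj d m).symm ⁻¹' (G ∩ tube δ (a i) (e i))) :=
        (hmp.measure_preimage hTm.nullMeasurableSet).symm
      refine le_trans ?_ ((hGi i).trans (h2.le.trans (measure_mono ?_)))
      · apply ENNReal.ofReal_le_ofReal
        gcongr
      · rintro ⟨t, y⟩ ⟨hz1, hz2⟩
        have h3 := Pool.Agent.W605.HM.tube_coord hδ1 m (a i) (e i) (he i) (hem i) (hmax i) t y hz2
        exact ⟨⟨hz1, h3.1⟩, h3.2⟩)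
  refine h1.trans ?_
  rw [hmp.measure_preimage hG.nullMeasurableSet]
  have h2 : ENNReal.ofReal ((N : ℝ) ^ d) ≤ ENNReal.ofReal Q * ENNReal.ofReal ((δ⁻¹) ^ d) := by
    rw [← ENNReal.ofReal_mul hQ0.le]
    apply ENNReal.ofReal_le_ofReal
    rw [hQ, ← mul_pow]
    gcongr
  calc ENNReal.ofReal C * (ENNReal.ofReal ((N : ℝ) ^ d) * volume G) ^ c
      ≤ ENNReal.ofReal C * (ENNReal.ofReal Q * ENNReal.ofReal ((δ⁻¹) ^ d) * volume G) ^ c := by
        gcongr
    _ = ENNReal.ofReal (C * Q ^ c) * (ENNReal.ofReal ((δ⁻¹) ^ d) * volume G) ^ c := by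
        rw [mul_assoc, ENNReal.mul_rpow_of_nonneg _ _ (by linarith), ENNReal.ofReal_mul hC.le,
          ← ENNReal.ofReal_rpow_of_nonneg hQ0.le (by linarith), mul_assoc]

/-- Tubes in Euclidean space. -/
theorem tubes (d : ℕ) {c : ℝ} (hc : 1 ≤ c) (h : Cnt d c) (lam : ℝ) (hlam : 0 < lam) :
    ∃ C : ℝ, 0 < C ∧ ∀ δ : ℝ, 0 < δ → δ ≤ 1 → ∀ (ι : Type) [Fintype ι]
    (a e : ι → EuclideanSpace ℝ (Fin (d + 1))), (∀ i, ‖e i‖ = 1) →
    (∀ i j, i ≠ j → δ ≤ ‖e i - e j‖) →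
    ∀ G : Set (EuclideanSpace ℝ (Fin (d + 1))), MeasurableSet G →
    (∀ i, ENNReal.ofReal (lam * δ ^ d) ≤ volume (G ∩ tube δ (a i) (e i))) →
    (Fintype.card ι : ℝ≥0∞) ≤ ENNReal.ofReal C * (ENNReal.ofReal ((δ⁻¹) ^ d) * volume G) ^ c := by
  obtain ⟨C, hC, hone⟩ := one_class d hc h lam hlam
  obtain ⟨K, hK⟩ : ∃ K : ℕ, K = Fintype.card (Fin (d + 1) × Bool) := ⟨_, rfl⟩
  have hK0 : 0 < K := by rw [hK]; exact Fintype.card_pos
  refine ⟨K * C, by positivity, ?_⟩
  intro δ hδ hδ1 ι _ a e he hsep G hG hGi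
  have hmax : ∀ i : ι, ∃ m : Fin (d + 1), ∀ k, |e i k| ≤ |e i m| := by
    intro i
    exact (Finite.exists_max fun k => |e i k|)
  choose M hM using hmax
  have hne0 : ∀ i, e i (M i) ≠ 0 := by
    intro i h0
    have h1 : e i = 0 := by
      ext k
      have h2 := hM i k
      rw [h0, abs_zero] at h2
      exact abs_eq_zero.1 (le_antisymm h2 (abs_nonneg _))
    have h2 := he i
    rw [h1, norm_zero] at h2
    exact zero_ne_one h2
  set cls : ι → Fin (d + 1) × Bool := fun i => (M i, decide (0 < e i (M i))) with hcls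
  have hclass : ∀ u : Fin (d + 1) × Bool, (#(Finset.univ.filter fun i => cls i = u) : ℝ≥0∞) ≤
      ENNReal.ofReal C * (ENNReal.ofReal ((δ⁻¹) ^ d) * volume G) ^ c := by
    intro u
    obtain ⟨m, sg⟩ := u
    have hmem : ∀ i : {i // cls i = (m, sg)}, M i = m ∧ decide (0 < e i (M i)) = sg := by
      intro i
      have := i.2
      simp only [hcls, Prod.mk.injEq] at this
      exact this
    have h1 := hone δ hδ hδ1 {i // cls i = (m, sg)} (fun i => a i) (fun i => e i) m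
      (fun i => he i)
      (by
        intro i k
        have := hM i k
        rwa [(hmem i).1] at this)
      (by
        intro i j
        have h1 := (hmem i).2
        have h2 := (hmem j).2
        have h4 := hne0 i
        have h5 := hne0 j
        rw [(hmem i).1] at h1 h4
        rw [(hmem j).1] at h2 h5
        have h3 : (0 < e i m) ↔ (0 < e j m) := by
          rw [← decide_eq_decide, h1, h2]
        rcases lt_or_gt_of_ne h4 with h6 | h6
        · have h7 : e j m < 0 := by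
            rcases lt_or_gt_of_ne h5 with h7 | h7
            · exact h7
            · exact absurd (h3.mpr h7) (not_lt.mpr h6.le)
          exact mul_pos_of_neg_of_neg h6 h7
        · exact mul_pos h6 (h3.mp h6))
      (fun i j hij => hsep i j fun h => hij (Subtype.ext h)) G hG (fun i => hGi i)
    rwa [Fintype.card_subtype] at h1
  have hcard : (Fintype.card ι : ℝ≥0∞) = ∑ u : Fin (d + 1) × Bool,
      (#(Finset.univ.filter fun i => cls i = u) : ℝ≥0∞) := by
    have h1 := Finset.card_eq_sum_card_fiberwise (f := cls) (s := (Finset.univ : Finset ι))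
      (t := (Finset.univ : Finset (Fin (d + 1) × Bool))) (fun i _ => by simp)
    rw [Finset.card_univ] at h1
    rw [h1]
    push_cast
    rfl
  rw [hcard]
  refine (Finset.sum_le_sum fun u _ => hclass u).trans (le_of_eq ?_)
  rw [Finset.sum_const, Finset.card_univ, ← hK, nsmul_eq_mul, ENNReal.ofReal_mul
    (Nat.cast_nonneg K), ENNReal.ofReal_natCast, mul_assoc]

/-- The level sets of the Kakeya maximal functions of sets. -/
theorem level_set (d : ℕ) {c : ℝ} (hc : 1 ≤ c) (h : Cnt d c) (lam : ℝ) (hlam : 0 < lam) :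
    ∃ C : ℝ, 0 < C ∧ ∀ δ : ℝ, 0 < δ → δ < 1 →
    ∀ G : Set (EuclideanSpace ℝ (Fin (d + 1))), MeasurableSet G →
    ∀ E : Set (Metric.sphere (0 : EuclideanSpace ℝ (Fin (d + 1))) 1),
    (∀ x ∈ E, ∃ a : EuclideanSpace ℝ (Fin (d + 1)),
      ENNReal.ofReal lam * volume (tube δ a (x : EuclideanSpace ℝ (Fin (d + 1)))) ≤
        volume (G ∩ tube δ a (x : EuclideanSpace ℝ (Fin (d + 1))))) →
    (volume : Measure (EuclideanSpace ℝ (Fin (d + 1)))).toSphere E ≤
      ENNReal.ofReal (C * δ ^ (-((c - 1) * (d : ℝ)))) * (volume G) ^ c := by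
  obtain ⟨C1, hC1, hcap⟩ := Pool.Agent.W131.HM.CAP d
  obtain ⟨κ, hκ, hvol⟩ := Pool.Agent.W131.HM.VOL d
  obtain ⟨C, hC, hT⟩ := tubes d hc h (lam * κ) (by positivity)
  refine ⟨C * C1, by positivity, ?_⟩
  intro δ hδ hδ1 G hG E hE
  obtain ⟨I, hIE, hIsep, hIcov⟩ := Pool.Agent.W101.HM.exists_net E hδ
  have hmeas : (volume : Measure (EuclideanSpace ℝ (Fin (d + 1)))).toSphere E ≤
      (I.card : ℝ≥0∞) * ENNReal.ofReal (C1 * δ ^ d) := by
    refine (measure_mono hIcov).trans ((measure_biUnion_finset_le I _).trans ?_)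
    refine (Finset.sum_le_sum fun e _ => hcap e δ hδ hδ1.le).trans ?_
    rw [Finset.sum_const, nsmul_eq_mul]
  have hch : ∀ x : {x // x ∈ I}, ∃ a : EuclideanSpace ℝ (Fin (d + 1)),
      ENNReal.ofReal (lam * κ * δ ^ d) ≤ volume (G ∩ tube δ a
        ((x : Metric.sphere (0 : EuclideanSpace ℝ (Fin (d + 1))) 1) :
          EuclideanSpace ℝ (Fin (d + 1)))) := by
    intro x
    obtain ⟨a, ha⟩ := hE _ (hIE x.1 x.2)
    refine ⟨a, le_trans ?_ ha⟩
    have he : ‖((x : Metric.sphere (0 : EuclideanSpace ℝ (Fin (d + 1))) 1) :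
        EuclideanSpace ℝ (Fin (d + 1)))‖ = 1 := by
      simp
    rw [mul_assoc, ENNReal.ofReal_mul hlam.le]
    gcongr
    exact (hvol a _ δ he hδ hδ1.le).1
  choose a ha using hch
  have hT' := hT δ hδ hδ1.le {x // x ∈ I} a
    (fun i => ((i : Metric.sphere (0 : EuclideanSpace ℝ (Fin (d + 1))) 1) :
      EuclideanSpace ℝ (Fin (d + 1))))
    (fun i => by simp)
    (fun i j hij => by
      have h1 := hIsep i i.2 j j.2 (fun hh => hij (Subtype.ext hh))
      rwa [Subtype.dist_eq, dist_eq_norm] at h1) G hG ha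
  rw [Fintype.card_coe] at hT'
  refine hmeas.trans ?_
  calc (I.card : ℝ≥0∞) * ENNReal.ofReal (C1 * δ ^ d)
      ≤ (ENNReal.ofReal C * (ENNReal.ofReal ((δ⁻¹) ^ d) * volume G) ^ c) *
        ENNReal.ofReal (C1 * δ ^ d) := by gcongr
    _ = ENNReal.ofReal (C * C1 * δ ^ (-((c - 1) * (d : ℝ)))) * (volume G) ^ c := by
        rw [ENNReal.mul_rpow_of_nonneg _ _ (by linarith), ENNReal.ofReal_rpow_of_nonneg
          (by positivity) (by linarith)]
        have e1 : C * C1 * δ ^ (-((c - 1) * (d : ℝ))) =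
            C * (((δ⁻¹) ^ d) ^ c) * (C1 * δ ^ d) := by
          have h1 : ((δ⁻¹) ^ d) ^ c = δ ^ (-((d : ℝ) * c)) := by
            rw [← Real.rpow_natCast, ← Real.rpow_mul (by positivity), Real.inv_rpow hδ.le,
              ← Real.rpow_neg hδ.le]
          have h2 : δ ^ (-((c - 1) * (d : ℝ))) = δ ^ (-((d : ℝ) * c)) * δ ^ d := by
            rw [← Real.rpow_natCast δ d, ← Real.rpow_add hδ]
            congr 1
            ring
          rw [h1, h2]
          ring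
        rw [e1, ENNReal.ofReal_mul (p := C * ((δ⁻¹) ^ d) ^ c) (by positivity),
          ENNReal.ofReal_mul hC.le]
        ring

end Pool.Agent.U597.ID
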