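import Pool.Agent.TH404.AK.Sdc3
import Pool.Agent.U597.ID.Tub

/-!
# The Kakeya maximal functions of bounded functions at a fixed level
-/

set_option autoImplicit false

open Finset MeasureTheory
open scoped Classical ENNReal NNReal

namespace Pool.Agent.U597.ID
open Pool.Agent.W46.KK Pool.Agent.W46.HM

/-- The counting inequality with the exponent of chains of planes. -/
theorem cnt_chain (d : ℕ) : Cnt d (1669587 / 1000000) := by
  obtain ⟨T, w, hO⟩ := Pool.Agent.TH404.AK.oracle3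
  intro l hl
  exact counting (by norm_num) hO d l hl

/-- Level sets of the maximal function of a bounded function. -/
theorem level_fun (d : ℕ) {c : ℝ} (hc : 1 ≤ c) (h : Cnt d c) (η : ℝ) (hη : 0 < η) :
    ∃ C : ℝ, 0 < C ∧ ∀ δ : ℝ, 0 < δ → δ < 1 →
    ∀ (f : EuclideanSpace ℝ (Fin (d + 1)) → ℝ≥0∞) (B : ℝ), AEMeasurable f volume → 0 < B →
    (∀ᵐ y, f y ≤ ENNReal.ofReal B) →
    (volume : Measure (EuclideanSpace ℝ (Fin (d + 1)))).toSphere
        {e | ENNReal.ofReal (η * B) < kmax δ f (e : EuclideanSpace ℝ (Fin (d + 1)))} ≤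
      ENNReal.ofReal (C * δ ^ (-((c - 1) * (d : ℝ)))) *
        (volume {y | ENNReal.ofReal (η * B / 2) < f y}) ^ c := by
  obtain ⟨C, hC, hL⟩ := level_set d hc h (η / 2) (by positivity)
  refine ⟨C, hC, ?_⟩
  intro δ hδ hδ1 f B hf hB hfB
  obtain ⟨f', hf', hff'⟩ : ∃ f' : EuclideanSpace ℝ (Fin (d + 1)) → ℝ≥0∞, Measurable f' ∧
    f =ᵐ[volume] f' := ⟨hf.mk f, hf.measurable_mk, hf.ae_eq_mk⟩
  obtain ⟨G, hG⟩ : ∃ G : Set (EuclideanSpace ℝ (Fin (d + 1))),
    G = {y | ENNReal.ofReal (η * B / 2) < f' y} := ⟨_, rfl⟩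
  have hGm : MeasurableSet G := by
    rw [hG]
    exact measurableSet_lt measurable_const hf'
  have hGv : volume G = volume {y | ENNReal.ofReal (η * B / 2) < f y} := by
    rw [hG]
    apply measure_congr
    filter_upwards [hff'] with y hy
    apply propext
    change ENNReal.ofReal (η * B / 2) < f' y ↔ ENNReal.ofReal (η * B / 2) < f y
    rw [hy]
  rw [← hGv]
  refine hL δ hδ hδ1 G hGm _ ?_
  intro x hx
  have h1 : ENNReal.ofReal (η * B) < kmax δ f (x : EuclideanSpace ℝ (Fin (d + 1))) := hx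
  rw [kmax, lt_iSup_iff] at h1
  obtain ⟨a, ha⟩ := h1
  refine ⟨a, ?_⟩
  have he : ‖(x : EuclideanSpace ℝ (Fin (d + 1)))‖ = 1 := by simp
  obtain ⟨κ, hκ, hvol⟩ := Pool.Agent.W131.HM.VOL d
  obtain ⟨hv1, hv2⟩ := hvol a _ δ he hδ hδ1.le
  set T := tube δ a (x : EuclideanSpace ℝ (Fin (d + 1))) with hT
  have hTm : MeasurableSet T := (tube_isClosed _ _ _).measurableSet
  have hv0 : volume T ≠ 0 := by
    have : 0 < ENNReal.ofReal (κ * δ ^ d) := ENNReal.ofReal_pos.2 (by positivity)
    exact (this.trans_le hv1).ne'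
  have h2 : ENNReal.ofReal (η * B) * volume T ≤ ∫⁻ y in T, f y := by
    calc ENNReal.ofReal (η * B) * volume T ≤ ((volume T)⁻¹ * ∫⁻ y in T, f y) * volume T := by
          gcongr
      _ = ∫⁻ y in T, f y := by
          rw [mul_right_comm, ENNReal.inv_mul_cancel hv0 hv2, one_mul]
  have h3 : ∫⁻ y in T, f y ≤ ENNReal.ofReal B * volume (G ∩ T) +
      ENNReal.ofReal (η * B / 2) * volume T := by
    calc ∫⁻ y in T, f y ≤ ∫⁻ y in T, (G.indicator (fun _ => ENNReal.ofReal B) y +
          ENNReal.ofReal (η * B / 2)) := by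
          apply lintegral_mono_ae
          filter_upwards [ae_restrict_of_ae hfB, ae_restrict_of_ae hff'] with y hy1 hy2
          by_cases hy : y ∈ G
          · rw [Set.indicator_of_mem hy]
            exact hy1.trans le_self_add
          · rw [Set.indicator_of_notMem hy, zero_add]
            rw [hG] at hy
            have h4 : f' y ≤ ENNReal.ofReal (η * B / 2) := not_lt.1 hy
            rw [hy2]
            exact h4
      _ = ENNReal.ofReal B * volume (G ∩ T) + ENNReal.ofReal (η * B / 2) * volume T := by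
          rw [lintegral_add_right _ measurable_const, lintegral_indicator hGm, setLIntegral_const,
            setLIntegral_const, Measure.restrict_apply hGm]
  have h4 : ENNReal.ofReal (η * B) * volume T =
      ENNReal.ofReal (η * B / 2) * volume T + ENNReal.ofReal (η * B / 2) * volume T := by
    rw [← add_mul, ← ENNReal.ofReal_add (by positivity) (by positivity)]
    congr 2
    ring
  have h5 : ENNReal.ofReal (η * B / 2) * volume T ≤ ENNReal.ofReal B * volume (G ∩ T) := by
    have h6 := h2.trans h3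
    rw [h4] at h6
    exact (ENNReal.add_le_add_iff_right (ENNReal.mul_ne_top ENNReal.ofReal_ne_top hv2)).1 h6
  have h6 : ENNReal.ofReal (η * B / 2) = ENNReal.ofReal B * ENNReal.ofReal (η / 2) := by
    rw [← ENNReal.ofReal_mul hB.le]
    congr 1
    ring
  rw [h6, mul_assoc] at h5
  exact (ENNReal.mul_le_mul_iff_right (by
    rw [ne_eq, ENNReal.ofReal_eq_zero, not_le]; exact hB) ENNReal.ofReal_ne_top).1 h5

/-- The maximal function is bounded by the bound of the function. -/
theorem kmax_le (d : ℕ) {δ : ℝ} (f : EuclideanSpace ℝ (Fin (d + 1)) → ℝ≥0∞) (B : ℝ)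
    (hfB : ∀ᵐ y, f y ≤ ENNReal.ofReal B) (e : EuclideanSpace ℝ (Fin (d + 1))) :
    kmax δ f e ≤ ENNReal.ofReal B := by
  rw [kmax]
  refine iSup_le fun a => ?_
  have h1 : ∫⁻ y in tube δ a e, f y ≤ ENNReal.ofReal B * volume (tube δ a e) := by
    calc ∫⁻ y in tube δ a e, f y ≤ ∫⁻ _y in tube δ a e, ENNReal.ofReal B :=
          lintegral_mono_ae (ae_restrict_of_ae hfB)
      _ = _ := setLIntegral_const _ _
  calc (volume (tube δ a e))⁻¹ * ∫⁻ y in tube δ a e, f y
      ≤ (volume (tube δ a e))⁻¹ * (ENNReal.ofReal B * volume (tube δ a e)) := by gcongr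
    _ = ENNReal.ofReal B * ((volume (tube δ a e))⁻¹ * volume (tube δ a e)) := by ring
    _ ≤ ENNReal.ofReal B * 1 := by
        gcongr
        exact ENNReal.inv_mul_le_one _
    _ = ENNReal.ofReal B := mul_one _

/-- `‖f*_δ‖_c ^ c ≤ ε ‖f‖_∞ ^ c + C δ ^ (-(c - 1) d) ‖f‖_1 ^ c`. -/
theorem eps_max (d : ℕ) {c : ℝ} (hc : 1 ≤ c) (h : Cnt d c) (ε : ℝ) (hε : 0 < ε) :
    ∃ C : ℝ, 0 < C ∧ ∀ δ : ℝ, 0 < δ → δ < 1 →
    ∀ (f : EuclideanSpace ℝ (Fin (d + 1)) → ℝ≥0∞) (B : ℝ), AEMeasurable f volume → 0 < B →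
    (∀ᵐ y, f y ≤ ENNReal.ofReal B) →
    ∫⁻ e : Metric.sphere (0 : EuclideanSpace ℝ (Fin (d + 1))) 1,
        kmax δ f (e : EuclideanSpace ℝ (Fin (d + 1))) ^ c
        ∂(volume : Measure (EuclideanSpace ℝ (Fin (d + 1)))).toSphere ≤
      ENNReal.ofReal (ε * B ^ c) +
        ENNReal.ofReal (C * δ ^ (-((c - 1) * (d : ℝ)))) * (∫⁻ y, f y) ^ c := by
  have hc0 : 0 < c := by linarith
  obtain ⟨σ, hσ⟩ : ∃ σ : ℝ≥0∞, σ = (volume : Measure (EuclideanSpace ℝ (Fin (d + 1)))).toSphere
    Set.univ := ⟨_, rfl⟩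
  have hσtop : σ ≠ ⊤ := by rw [hσ]; exact measure_ne_top _ _
  obtain ⟨η, hη0, hησ⟩ : ∃ η : ℝ, 0 < η ∧ η ^ c * σ.toReal ≤ ε := by
    refine ⟨(ε / (σ.toReal + 1)) ^ (1 / c), by positivity, ?_⟩
    rw [← Real.rpow_mul (by positivity), one_div, inv_mul_cancel₀ hc0.ne', Real.rpow_one,
      div_mul_eq_mul_div, div_le_iff₀ (by positivity)]
    have : 0 ≤ σ.toReal := ENNReal.toReal_nonneg
    nlinarith
  obtain ⟨C, hC, hL⟩ := level_fun d hc h η hη0
  refine ⟨C * (2 / η) ^ c, by positivity, ?_⟩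
  intro δ hδ hδ1 f B hf hB hfB
  set μ := (volume : Measure (EuclideanSpace ℝ (Fin (d + 1)))).toSphere with hμ
  have hlev := hL δ hδ hδ1 f B hf hB hfB
  obtain ⟨S, hS⟩ : ∃ S : Set (Metric.sphere (0 : EuclideanSpace ℝ (Fin (d + 1))) 1),
    S = {e : Metric.sphere (0 : EuclideanSpace ℝ (Fin (d + 1))) 1 |
      ENNReal.ofReal (η * B) < kmax δ f (e : EuclideanSpace ℝ (Fin (d + 1)))} := ⟨_, rfl⟩
  rw [← hS] at hlev
  have hS'm : MeasurableSet (toMeasurable μ S) := measurableSet_toMeasurable _ _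
  have h1 : ∫⁻ e, kmax δ f (e : EuclideanSpace ℝ (Fin (d + 1))) ^ c ∂μ ≤
      ∫⁻ e, (ENNReal.ofReal (η * B) ^ c + (toMeasurable μ S).indicator
        (fun _ => ENNReal.ofReal B ^ c) e) ∂μ := by
    refine lintegral_mono fun e => ?_
    by_cases he : e ∈ S
    · simp only
      rw [Set.indicator_of_mem (subset_toMeasurable μ S he)]
      refine (ENNReal.rpow_le_rpow (kmax_le d f B hfB _) hc0.le).trans le_add_self
    · have h2 : kmax δ f (e : EuclideanSpace ℝ (Fin (d + 1))) ≤ ENNReal.ofReal (η * B) := by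
        rw [hS] at he
        exact not_lt.1 he
      exact (ENNReal.rpow_le_rpow h2 hc0.le).trans le_self_add
  refine h1.trans ?_
  rw [lintegral_add_left measurable_const, lintegral_const, lintegral_indicator hS'm,
    setLIntegral_const, measure_toMeasurable]
  have hM : volume {y | ENNReal.ofReal (η * B / 2) < f y} ≤
      ENNReal.ofReal (2 / (η * B)) * ∫⁻ y, f y := by
    have h2 := mul_meas_ge_le_lintegral₀ hf (ENNReal.ofReal (η * B / 2))
    have h3 : volume {y | ENNReal.ofReal (η * B / 2) < f y} ≤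
        volume {y | ENNReal.ofReal (η * B / 2) ≤ f y} := measure_mono fun y hy => by
      have h4 : ENNReal.ofReal (η * B / 2) < f y := hy
      exact h4.le
    calc volume {y | ENNReal.ofReal (η * B / 2) < f y}
        = ENNReal.ofReal (2 / (η * B)) * (ENNReal.ofReal (η * B / 2) *
          volume {y | ENNReal.ofReal (η * B / 2) < f y}) := by
          rw [← mul_assoc, ← ENNReal.ofReal_mul (by positivity)]
          have : 2 / (η * B) * (η * B / 2) = 1 := by field_simp
          rw [this, ENNReal.ofReal_one, one_mul]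
      _ ≤ ENNReal.ofReal (2 / (η * B)) * ∫⁻ y, f y := by
          gcongr
          exact le_trans (by gcongr) h2
  apply add_le_add
  · rw [ENNReal.ofReal_rpow_of_nonneg (by positivity) hc0.le, ← hσ,
      ← ENNReal.ofReal_toReal hσtop, ← ENNReal.ofReal_mul (by positivity)]
    apply ENNReal.ofReal_le_ofReal
    rw [Real.mul_rpow hη0.le hB.le]
    have : 0 ≤ B ^ c := by positivity
    nlinarith
  · calc ENNReal.ofReal B ^ c * μ S ≤ ENNReal.ofReal B ^ c *
        (ENNReal.ofReal (C * δ ^ (-((c - 1) * (d : ℝ)))) *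
          (ENNReal.ofReal (2 / (η * B)) * ∫⁻ y, f y) ^ c) := by
          gcongr
          refine hlev.trans ?_
          gcongr
      _ = ENNReal.ofReal (C * (2 / η) ^ c * δ ^ (-((c - 1) * (d : ℝ)))) * (∫⁻ y, f y) ^ c := by
          rw [ENNReal.mul_rpow_of_nonneg _ _ hc0.le, ENNReal.ofReal_rpow_of_nonneg hB.le hc0.le,
            ENNReal.ofReal_rpow_of_nonneg (by positivity) hc0.le]
          have e1 : C * (2 / η) ^ c * δ ^ (-((c - 1) * (d : ℝ))) =
              B ^ c * (C * δ ^ (-((c - 1) * (d : ℝ)))) * (2 / (η * B)) ^ c := by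
            have h2 : (2 / (η * B)) ^ c = (2 / η) ^ c / B ^ c := by
              rw [← Real.div_rpow (by positivity) hB.le]
              congr 1
              field_simp
            rw [h2]
            have : B ^ c ≠ 0 := (Real.rpow_pos_of_pos hB c).ne'
            field_simp
          rw [e1, ENNReal.ofReal_mul (p := B ^ c * (C * δ ^ (-((c - 1) * (d : ℝ)))))
            (by positivity), ENNReal.ofReal_mul (p := B ^ c) (by positivity)]
          ring

end Pool.Agent.U597.ID
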