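import Pool.Agent.U597.ID.Max

/-!
# Typical multiplicity of families of tubes with separated directions
-/

set_option autoImplicit false

open Finset MeasureTheory
open scoped Classical ENNReal NNReal

namespace Pool.Agent.U597.ID
open Pool.Agent.W46.KK Pool.Agent.W46.HM

/-- volume of a slanted tube -/
theorem vol_Tb (d : ℕ) (P v : Fin d → ℝ) (b r : ℝ) (hr : 0 ≤ r) :
    volume ({z : ℝ × (Fin d → ℝ) | |z.1 - b| ≤ 3 / 2} ∩ Tb P v r) ≤
      ENNReal.ofReal (3 * (2 * r) ^ d) := by
  have hm : MeasurableSet ({z : ℝ × (Fin d → ℝ) | |z.1 - b| ≤ 3 / 2} ∩ Tb P v r) := by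
    refine MeasurableSet.inter ?_ (measurableSet_Tb _ _ _)
    apply IsClosed.measurableSet
    apply isClosed_le _ continuous_const
    fun_prop
  rw [Measure.volume_eq_prod, Measure.prod_apply hm]
  calc ∫⁻ t, volume (Prod.mk t ⁻¹' ({z : ℝ × (Fin d → ℝ) | |z.1 - b| ≤ 3 / 2} ∩ Tb P v r))
      ≤ ∫⁻ t, (Set.Icc (b - 3 / 2) (b + 3 / 2)).indicator
          (fun _ => ENNReal.ofReal ((2 * r) ^ d)) t := by
        refine lintegral_mono fun t => ?_
        by_cases ht : t ∈ Set.Icc (b - 3 / 2) (b + 3 / 2)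
        · simp only
          rw [Set.indicator_of_mem ht]
          have hsub : Prod.mk t ⁻¹' ({z : ℝ × (Fin d → ℝ) | |z.1 - b| ≤ 3 / 2} ∩ Tb P v r) ⊆
              Set.Icc (fun k => P k + t * v k - r) (fun k => P k + t * v k + r) := by
            intro y hy
            have h1 := hy.2
            constructor
            · intro k
              have := (abs_le.1 (h1 k)).1
              simp only at this ⊢
              linarith
            · intro k
              have := (abs_le.1 (h1 k)).2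
              simp only at this ⊢
              linarith
          refine (measure_mono hsub).trans ?_
          rw [Real.volume_Icc_pi]
          have h1 : ∀ k : Fin d, ENNReal.ofReal (P k + t * v k + r - (P k + t * v k - r)) =
              ENNReal.ofReal (2 * r) := by
            intro k
            congr 1
            ring
          rw [Finset.prod_congr rfl fun k _ => h1 k, Finset.prod_const, Finset.card_univ,
            Fintype.card_fin, ← ENNReal.ofReal_pow (by positivity)]
        · have hemp : Prod.mk t ⁻¹' ({z : ℝ × (Fin d → ℝ) | |z.1 - b| ≤ 3 / 2} ∩ Tb P v r) = ∅ := by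
            rw [Set.eq_empty_iff_forall_notMem]
            rintro y ⟨h1, -⟩
            have h2 : |t - b| ≤ 3 / 2 := h1
            have h3 := abs_le.1 h2
            exact ht ⟨by linarith, by linarith⟩
          simp only [hemp, measure_empty, zero_le]
    _ = ENNReal.ofReal (3 * (2 * r) ^ d) := by
        rw [lintegral_indicator measurableSet_Icc, setLIntegral_const, Real.volume_Icc,
          ← ENNReal.ofReal_mul (by positivity)]
        congr 1
        ring

/-- upper bound for the volume of a tube -/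
theorem vol_tube_le (d : ℕ) {δ : ℝ} (hδ : 0 < δ) (hδ1 : δ ≤ 1)
    (a e : EuclideanSpace ℝ (Fin (d + 1))) (he : ‖e‖ = 1) :
    volume (tube δ a e) ≤ ENNReal.ofReal (3 * 4 ^ d * δ ^ d) := by
  obtain ⟨m, hm⟩ : ∃ m : Fin (d + 1), ∀ k, |e k| ≤ |e m| := Finite.exists_max fun k => |e k|
  have hem : e m ≠ 0 := by
    intro h0
    have h1 : e = 0 := by
      ext k
      have h2 := hm k
      rw [h0, abs_zero] at h2
      exact abs_eq_zero.1 (le_antisymm h2 (abs_nonneg _))
    rw [h1, norm_zero] at he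
    exact zero_ne_one he
  have hmp : MeasurePreserving (eqvj d m).symm volume volume := (eqvj_mp d m).symm (eqvj d m)
  rw [← hmp.measure_preimage (tube_isClosed _ _ _).measurableSet.nullMeasurableSet]
  refine (measure_mono (t := {z : ℝ × (Fin d → ℝ) | |z.1 - a m| ≤ 3 / 2} ∩
    Tb (fun k => a (m.succAbove k) - a m * (e (m.succAbove k) / e m))
      (fun k => e (m.succAbove k) / e m) (2 * δ)) ?_).trans
    ((vol_Tb d _ _ _ _ (by positivity)).trans (le_of_eq ?_))
  · rintro ⟨t, y⟩ hz
    exact Pool.Agent.W605.HM.tube_coord hδ1 m a e he hem hm t y hz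
  · congr 1
    rw [mul_assoc, ← mul_pow]
    congr 2
    ring

/-- Most of the mass of a family of tubes is at points of small multiplicity. -/
theorem mult (d : ℕ) {c : ℝ} (hc : 1 ≤ c) (h : Cnt d c) (lam : ℝ) (hlam : 0 < lam) :
    ∃ C : ℝ, 0 < C ∧ ∀ δ : ℝ, 0 < δ → δ ≤ 1 → ∀ (ι : Type) [Fintype ι]
    (a e : ι → EuclideanSpace ℝ (Fin (d + 1))), (∀ i, ‖e i‖ = 1) →
    (∀ i j, i ≠ j → δ ≤ ‖e i - e j‖) →
    ∫⁻ x in {x | ENNReal.ofReal (C * (Fintype.card ι : ℝ) ^ (1 - 1 / c)) <
        ∑ i, (tube δ (a i) (e i)).indicator (fun _ => (1 : ℝ≥0∞)) x},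
        ∑ i, (tube δ (a i) (e i)).indicator (fun _ => (1 : ℝ≥0∞)) x ≤
      ENNReal.ofReal lam * ∫⁻ x, ∑ i, (tube δ (a i) (e i)).indicator (fun _ => (1 : ℝ≥0∞)) x := by
  have hc0 : 0 < c := by linarith
  obtain ⟨κ, hκ, hvol⟩ := Pool.Agent.W131.HM.VOL d
  obtain ⟨κ', hκ'⟩ : ∃ κ' : ℝ, κ' = 3 * 4 ^ d := ⟨_, rfl⟩
  have hκ'0 : 0 < κ' := by rw [hκ']; positivity
  obtain ⟨β, hβ⟩ : ∃ β : ℝ, β = lam * κ / 2 := ⟨_, rfl⟩
  have hβ0 : 0 < β := by rw [hβ]; positivity
  obtain ⟨CT, hCT, hT⟩ := tubes d hc h β hβ0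
  obtain ⟨ρ, hρ⟩ : ∃ ρ : ℝ, ρ = lam * κ / (4 * κ' * CT) := ⟨_, rfl⟩
  have hρ0 : 0 < ρ := by rw [hρ]; positivity
  obtain ⟨C, hC⟩ : ∃ C : ℝ, C = κ' / ρ ^ (1 / c) := ⟨_, rfl⟩
  have hCpos : 0 < C := by rw [hC]; positivity
  have hCρ : (κ' / C) ^ c = ρ := by
    have h1 : κ' / C = ρ ^ (1 / c) := by
      rw [hC]
      field_simp
    rw [h1, ← Real.rpow_mul hρ0.le, one_div, inv_mul_cancel₀ hc0.ne', Real.rpow_one]
  refine ⟨C, hCpos, ?_⟩
  intro δ hδ hδ1 ι _ a e he hsep
  obtain ⟨K, hK⟩ : ∃ K : ℝ, K = (Fintype.card ι : ℝ) := ⟨_, rfl⟩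
  rw [← hK]
  rcases isEmpty_or_nonempty ι with hι | hι
  · simp
  have hK0 : 0 < K := by rw [hK]; exact_mod_cast Fintype.card_pos
  have hTm : ∀ i, MeasurableSet (tube δ (a i) (e i)) := fun i => (tube_isClosed _ _ _).measurableSet
  obtain ⟨m, hm⟩ : ∃ m : EuclideanSpace ℝ (Fin (d + 1)) → ℝ≥0∞,
    m = fun x => ∑ i, (tube δ (a i) (e i)).indicator (fun _ => (1 : ℝ≥0∞)) x := ⟨_, rfl⟩
  have hmm : Measurable m := by
    rw [hm]
    exact Finset.measurable_sum _ fun i _ => measurable_const.indicator (hTm i)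
  obtain ⟨G, hG⟩ : ∃ G : Set (EuclideanSpace ℝ (Fin (d + 1))),
    G = {x | ENNReal.ofReal (C * K ^ (1 - 1 / c)) < m x} := ⟨_, rfl⟩
  have hGm : MeasurableSet G := by
    rw [hG]
    exact measurableSet_lt measurable_const hmm
  have hint : ∀ S : Set (EuclideanSpace ℝ (Fin (d + 1))),
      ∫⁻ x in S, m x = ∑ i, volume (S ∩ tube δ (a i) (e i)) := by
    intro S
    rw [hm, lintegral_finsetSum _ fun i _ => measurable_const.indicator (hTm i)]
    refine Finset.sum_congr rfl fun i _ => ?_
    rw [lintegral_indicator (hTm i), setLIntegral_one, Measure.restrict_apply (hTm i),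
      Set.inter_comm]
  have hgoal : ∫⁻ x in G, m x ≤ ENNReal.ofReal lam * ∫⁻ x, m x := by
    by_contra hcon
    push Not at hcon
    have hall : ∫⁻ x, m x = ∑ i, volume (tube δ (a i) (e i)) := by
      have := hint Set.univ
      rw [Measure.restrict_univ] at this
      simpa using this
    have hlow : ENNReal.ofReal (K * (κ * δ ^ d)) ≤ ∫⁻ x, m x := by
      rw [hall, ENNReal.ofReal_mul hK0.le, hK, ENNReal.ofReal_natCast, ← Finset.card_univ,
        ← nsmul_eq_mul, ← Finset.sum_const]
      exact Finset.sum_le_sum fun i _ => (hvol (a i) (e i) δ (he i) hδ hδ1).1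
    have hup : ∫⁻ x, m x ≤ ENNReal.ofReal (K * (κ' * δ ^ d)) := by
      rw [hall, ENNReal.ofReal_mul hK0.le, hK, ENNReal.ofReal_natCast, ← Finset.card_univ,
        ← nsmul_eq_mul, ← Finset.sum_const, hκ']
      exact Finset.sum_le_sum fun i _ => vol_tube_le d hδ hδ1 (a i) (e i) (he i)
    -- the tubes with much of `G`
    obtain ⟨I, hI⟩ : ∃ I : Finset ι, I = Finset.univ.filter fun i =>
      ENNReal.ofReal (β * δ ^ d) ≤ volume (G ∩ tube δ (a i) (e i)) := ⟨_, rfl⟩
    have hImem : ∀ i ∈ I, ENNReal.ofReal (β * δ ^ d) ≤ volume (G ∩ tube δ (a i) (e i)) := by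
      intro i hi
      rw [hI] at hi
      exact (Finset.mem_filter.1 hi).2
    have h1 : ∫⁻ x in G, m x ≤ ENNReal.ofReal (#I * (κ' * δ ^ d) + K * (β * δ ^ d)) := by
      rw [hint G]
      have h2 : ∀ i, volume (G ∩ tube δ (a i) (e i)) ≤
          ENNReal.ofReal ((if i ∈ I then κ' * δ ^ d else 0) + β * δ ^ d) := by
        intro i
        by_cases hi : i ∈ I
        · rw [if_pos hi]
          refine (measure_mono Set.inter_subset_right).trans
            ((vol_tube_le d hδ hδ1 (a i) (e i) (he i)).trans (ENNReal.ofReal_le_ofReal ?_))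
          rw [hκ']
          have : 0 ≤ β * δ ^ d := by positivity
          linarith
        · rw [if_neg hi, zero_add]
          rw [hI, Finset.mem_filter] at hi
          push Not at hi
          exact (hi (Finset.mem_univ _)).le
      refine (Finset.sum_le_sum fun i _ => h2 i).trans ?_
      rw [← ENNReal.ofReal_sum_of_nonneg fun i _ => by positivity]
      apply ENNReal.ofReal_le_ofReal
      rw [Finset.sum_add_distrib, Finset.sum_ite_mem, Finset.univ_inter, Finset.sum_const,
        Finset.sum_const, nsmul_eq_mul, nsmul_eq_mul, Finset.card_univ, hK]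
    have hIcard : lam * κ / (2 * κ') * K < #I := by
      have h2 : ENNReal.ofReal (lam * (K * (κ * δ ^ d))) <
          ENNReal.ofReal (#I * (κ' * δ ^ d) + K * (β * δ ^ d)) := by
        rw [ENNReal.ofReal_mul hlam.le]
        calc ENNReal.ofReal lam * ENNReal.ofReal (K * (κ * δ ^ d)) ≤
            ENNReal.ofReal lam * ∫⁻ x, m x := by gcongr
          _ < ∫⁻ x in G, m x := hcon
          _ ≤ _ := h1
      have h3 := (ENNReal.ofReal_lt_ofReal_iff_of_nonneg (by positivity)).1 h2
      have hδd : 0 < δ ^ d := by positivity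
      have h4 : lam * K * κ < #I * κ' + K * β := by
        have h5 : δ ^ d * (lam * K * κ) < δ ^ d * (#I * κ' + K * β) := by
          calc δ ^ d * (lam * K * κ) = lam * (K * (κ * δ ^ d)) := by ring
            _ < _ := h3
            _ = _ := by ring
        exact lt_of_mul_lt_mul_left h5 hδd.le
      rw [hβ] at h4
      rw [div_mul_eq_mul_div, div_lt_iff₀ (by positivity)]
      nlinarith
    have hT' := hT δ hδ hδ1 {i // i ∈ I} (fun i => a i) (fun i => e i) (fun i => he i)
      (fun i j hij => hsep i j fun hh => hij (Subtype.ext hh)) G hGm (fun i =>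
        hImem i.1 i.2)
    rw [Fintype.card_coe] at hT'
    -- the volume of `G`
    have hKpow : 0 < K ^ (1 - 1 / c) := Real.rpow_pos_of_pos hK0 _
    have hGv : ENNReal.ofReal (C * K ^ (1 - 1 / c)) * volume G ≤ ENNReal.ofReal (K * (κ' * δ ^ d)) := by
      refine le_trans ?_ hup
      have h2 := mul_meas_ge_le_lintegral₀ (μ := volume) hmm.aemeasurable
        (ENNReal.ofReal (C * K ^ (1 - 1 / c)))
      refine le_trans ?_ h2
      gcongr
      intro x hx
      rw [hG] at hx
      have h4 : ENNReal.ofReal (C * K ^ (1 - 1 / c)) < m x := hx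
      exact h4.le
    have hGv2 : volume G ≤ ENNReal.ofReal (κ' / C * (δ ^ d * K ^ (1 / c))) := by
      have h2 : K * (κ' * δ ^ d) = (C * K ^ (1 - 1 / c)) * (κ' / C * (δ ^ d * K ^ (1 / c))) := by
        have h3 : K ^ (1 - 1 / c) * K ^ (1 / c) = K := by
          rw [← Real.rpow_add hK0]
          simp
        calc K * (κ' * δ ^ d) = (K ^ (1 - 1 / c) * K ^ (1 / c)) * (κ' * δ ^ d) := by rw [h3]
          _ = _ := by field_simp
      rw [h2, ENNReal.ofReal_mul (p := C * K ^ (1 - 1 / c)) (by positivity)] at hGv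
      exact (ENNReal.mul_le_mul_iff_right (by
        rw [ne_eq, ENNReal.ofReal_eq_zero, not_le]; positivity) ENNReal.ofReal_ne_top).1 hGv
    have h5 : (#I : ℝ≥0∞) ≤ ENNReal.ofReal (CT * ρ * K) := by
      refine hT'.trans ?_
      calc ENNReal.ofReal CT * (ENNReal.ofReal ((δ⁻¹) ^ d) * volume G) ^ c
          ≤ ENNReal.ofReal CT * (ENNReal.ofReal ((δ⁻¹) ^ d) *
            ENNReal.ofReal (κ' / C * (δ ^ d * K ^ (1 / c)))) ^ c := by gcongr
        _ = ENNReal.ofReal (CT * ρ * K) := by
            rw [← ENNReal.ofReal_mul (by positivity), ENNReal.ofReal_rpow_of_nonneg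
              (by positivity) hc0.le, ← ENNReal.ofReal_mul hCT.le]
            congr 1
            have h6 : (δ⁻¹) ^ d * (κ' / C * (δ ^ d * K ^ (1 / c))) = κ' / C * K ^ (1 / c) := by
              have h7 : (δ⁻¹) ^ d * δ ^ d = 1 := by
                rw [← mul_pow, inv_mul_cancel₀ hδ.ne', one_pow]
              calc _ = ((δ⁻¹) ^ d * δ ^ d) * (κ' / C * K ^ (1 / c)) := by ring
                _ = _ := by rw [h7, one_mul]
            rw [h6, Real.mul_rpow (by positivity) (by positivity), hCρ, ← Real.rpow_mul hK0.le,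
              one_div, inv_mul_cancel₀ hc0.ne', Real.rpow_one]
            ring
    have h6 : (#I : ℝ) ≤ CT * ρ * K := by
      rw [← ENNReal.ofReal_natCast] at h5
      exact (ENNReal.ofReal_le_ofReal_iff (by positivity)).1 h5
    have h7 : CT * ρ * K = lam * κ / (4 * κ') * K := by
      rw [hρ]
      field_simp
    rw [h7] at h6
    have h8 : lam * κ / (4 * κ') * K ≤ lam * κ / (2 * κ') * K := by
      gcongr
      norm_num
    linarith
  rw [hG, hm] at hgoal
  exact hgoal

end Pool.Agent.U597.ID
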